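import Pool.Agent.H646R3.DH.Limits

set_option autoImplicit false
open MeasureTheory Filter Topology Set Asymptotics

namespace Pool.Agent.H646R3.DH

noncomputable section

variable {ζ : Measure ℝ} {m : ℕ} {ν : ℝ → Measure ℝ}

/-! ### Taylor estimate for the logarithm on `[0, ∞)` -/

lemma log_taylor_aux (n : ℕ) (hn : 1 ≤ n) (s : ℝ) (hs : |s| ≤ 1) {y : ℝ} (hy : 0 ≤ y) :
    0 ≤ y ^ (n + 1) / (1 + y) -
      s * (Real.log (1 + y) - ∑ i ∈ Finset.range n, (-1 : ℝ) ^ i * (y ^ (i + 1) / (i + 1))) := by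
  set g : ℝ → ℝ := fun y => y ^ (n + 1) / (1 + y) -
      s * (Real.log (1 + y) - ∑ i ∈ Finset.range n, (-1 : ℝ) ^ i * (y ^ (i + 1) / (i + 1))) with hg
  have hder : ∀ x : ℝ, 0 ≤ x → HasDerivAt g
      (((n + 1) * x ^ n * (1 + x) - x ^ (n + 1) * 1) / (1 + x) ^ 2 -
        s * (1 / (1 + x) - ∑ i ∈ Finset.range n, (-1 : ℝ) ^ i * ((i + 1) * x ^ i / (i + 1)))) x := by
    intro x hx
    have h1 : HasDerivAt (fun y : ℝ => 1 + y) 1 x := (hasDerivAt_id x).const_add 1
    have hne : 1 + x ≠ 0 := by linarith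
    have h2 : HasDerivAt (fun y : ℝ => y ^ (n + 1) / (1 + y))
        (((n + 1) * x ^ n * (1 + x) - x ^ (n + 1) * 1) / (1 + x) ^ 2) x := by
      have := (hasDerivAt_pow (n + 1) x).fun_div h1 hne
      simpa using this
    have h3 : HasDerivAt (fun y : ℝ => Real.log (1 + y)) (1 / (1 + x)) x := h1.log hne
    have h4 : HasDerivAt (fun y : ℝ => ∑ i ∈ Finset.range n, (-1 : ℝ) ^ i * (y ^ (i + 1) / (i + 1)))
        (∑ i ∈ Finset.range n, (-1 : ℝ) ^ i * ((i + 1) * x ^ i / (i + 1))) x := by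
      apply HasDerivAt.fun_sum
      intro i _
      have := ((hasDerivAt_pow (i + 1) x).div_const ((i : ℝ) + 1)).const_mul ((-1 : ℝ) ^ i)
      simpa using this
    exact h2.sub ((h3.sub h4).const_mul s)
  have hmono : MonotoneOn g (Ici 0) := by
    apply monotoneOn_of_deriv_nonneg (convex_Ici 0)
    · intro x hx
      exact (hder x hx).continuousAt.continuousWithinAt
    · intro x hx
      rw [interior_Ici] at hx
      exact (hder x (le_of_lt hx)).differentiableAt.differentiableWithinAt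
    · intro x hx
      rw [interior_Ici] at hx
      have hx0 : 0 < x := hx
      rw [(hder x hx0.le).deriv]
      have e1 : ∑ i ∈ Finset.range n, (-1 : ℝ) ^ i * ((i + 1) * x ^ i / (i + 1)) =
          (1 - (-x) ^ n) / (1 + x) := by
        have h1 : ∀ i ∈ Finset.range n, (-1 : ℝ) ^ i * ((i + 1) * x ^ i / (i + 1)) = (-x) ^ i := by
          intro i _
          have : (i : ℝ) + 1 ≠ 0 := by positivity
          rw [neg_pow x i]
          field_simp
        rw [Finset.sum_congr rfl h1, geom_sum_eq (by linarith)]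
        have : -x - 1 ≠ 0 := by linarith
        have : 1 + x ≠ 0 := by linarith
        field_simp
        ring
      rw [e1]
      have e2 : 1 / (1 + x) - (1 - (-x) ^ n) / (1 + x) = (-x) ^ n / (1 + x) := by ring
      rw [e2]
      have h3 : |s * ((-x) ^ n / (1 + x))| ≤ x ^ n / (1 + x) := by
        rw [abs_mul, abs_div, abs_pow, abs_neg, abs_of_pos hx0, abs_of_pos (show 0 < 1 + x by linarith)]
        have : 0 ≤ x ^ n / (1 + x) := by positivity
        nlinarith
      have h4 := (abs_le.1 h3).2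
      have h5 : x ^ n / (1 + x) ≤ ((n + 1) * x ^ n * (1 + x) - x ^ (n + 1) * 1) / (1 + x) ^ 2 := by
        rw [div_le_div_iff₀ (by positivity) (by positivity)]
        have hn1 : (1 : ℝ) ≤ n := by exact_mod_cast hn
        have h6 : 0 ≤ x ^ n := by positivity
        have h7 : ((n + 1) * x ^ n * (1 + x) - x ^ (n + 1) * 1) * (1 + x) - x ^ n * (1 + x) ^ 2 =
            x ^ n * (1 + x) * ((n + 1) + n * x - (1 + x)) := by ring
        have h8 : 0 ≤ x ^ n * (1 + x) * ((n + 1) + n * x - (1 + x)) := by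
          apply mul_nonneg (by positivity)
          nlinarith
        linarith
      linarith
  have h0 : g 0 = 0 := by
    simp [hg]
  have := hmono (show (0:ℝ) ∈ Ici 0 from le_refl (0:ℝ)) (show y ∈ Ici 0 from hy) hy
  rw [h0] at this
  exact this

lemma log_taylor (n : ℕ) (hn : 1 ≤ n) {y : ℝ} (hy : 0 ≤ y) :
    |Real.log (1 + y) - ∑ i ∈ Finset.range n, (-1 : ℝ) ^ i * (y ^ (i + 1) / (i + 1))| ≤
      y ^ (n + 1) / (1 + y) := by
  have h1 := log_taylor_aux n hn 1 (by simp) hy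
  have h2 := log_taylor_aux n hn (-1) (by simp) hy
  rw [abs_le]
  constructor <;> linarith

/-! ### the class of admissible functions -/

/-- `F = P + A E[Y^n] + O(t^p)` for a polynomial `P`. -/
def Adm (m : ℕ) (ν : ℝ → Measure ℝ) (p : ℕ) (F : ℝ → ℝ) (A : ℝ) : Prop :=
  ∃ P : Polynomial ℝ, (fun t => F t - P.eval t - A * mo ν (m + 1) t) =O[𝓝[>] 0] (fun t => t ^ p)

lemma Adm.add {p : ℕ} {F G : ℝ → ℝ} {A B : ℝ} (hF : Adm m ν p F A) (hG : Adm m ν p G B) :
    Adm m ν p (fun t => F t + G t) (A + B) := by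
  obtain ⟨P, hP⟩ := hF
  obtain ⟨Q, hQ⟩ := hG
  refine ⟨P + Q, (hP.add hQ).congr_left fun t => ?_⟩
  simp only [Polynomial.eval_add]
  ring

lemma Adm.const_mul {p : ℕ} {F : ℝ → ℝ} {A : ℝ} (hF : Adm m ν p F A) (c : ℝ) :
    Adm m ν p (fun t => c * F t) (c * A) := by
  obtain ⟨P, hP⟩ := hF
  refine ⟨Polynomial.C c * P, (hP.const_mul_left c).congr_left fun t => ?_⟩
  simp only [Polynomial.eval_mul, Polynomial.eval_C]
  ring

lemma Adm.congr {p : ℕ} {F G : ℝ → ℝ} {A : ℝ} (hF : Adm m ν p F A)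
    (h : ∀ᶠ t in 𝓝[>] (0:ℝ), F t = G t) : Adm m ν p G A := by
  obtain ⟨P, hP⟩ := hF
  refine ⟨P, hP.congr' ?_ EventuallyEq.rfl⟩
  filter_upwards [h] with t ht
  rw [ht]

lemma Adm.of_bigO {p : ℕ} {F : ℝ → ℝ} (h : F =O[𝓝[>] 0] (fun t => t ^ p)) : Adm m ν p F 0 := by
  refine ⟨0, h.congr_left fun t => ?_⟩
  simp

lemma Adm.const {p : ℕ} (c : ℝ) : Adm m ν p (fun _ => c) 0 := by
  refine ⟨Polynomial.C c, ?_⟩
  have : (fun t : ℝ => c - (Polynomial.C c).eval t - 0 * mo ν (m + 1) t) = fun _ => 0 := by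
    funext t
    simp
  rw [this]
  exact isBigO_zero _ _

lemma Adm.sum {p : ℕ} {ι : Type} (s : Finset ι) {F : ι → ℝ → ℝ} {A : ι → ℝ}
    (h : ∀ i ∈ s, Adm m ν p (F i) (A i)) :
    Adm m ν p (fun t => ∑ i ∈ s, F i t) (∑ i ∈ s, A i) := by
  classical
  induction s using Finset.induction_on with
  | empty => simpa using Adm.const (m := m) (ν := ν) (p := p) 0
  | insert a s ha ih =>
    simp_rw [Finset.sum_insert ha]
    exact (h a (Finset.mem_insert_self _ _)).add (ih fun i hi => h i (Finset.mem_insert_of_mem hi))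

lemma pow_bigO {p q : ℕ} (h : p ≤ q) :
    (fun t : ℝ => t ^ q) =O[𝓝[>] 0] (fun t : ℝ => t ^ p) := by
  refine IsBigO.of_bound 1 ?_
  filter_upwards [ev_small] with t ht
  rw [Real.norm_of_nonneg (pow_nonneg ht.1.le _), Real.norm_of_nonneg (pow_nonneg ht.1.le _), one_mul]
  exact pow_le_pow_of_le_one ht.1.le ht.2 h

lemma mo_nonneg (hF : Fam ζ ν) {t : ℝ} (ht : 0 < t) (ht1 : t ≤ 1) (k : ℕ) : 0 ≤ mo ν k t := by
  apply integral_nonneg_of_ae
  filter_upwards [(hF t ht ht1).nonneg] with y hy using pow_nonneg hy _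

lemma mo_top (H : Hyp ζ m) (hF : Fam ζ ν) :
    (fun t => mo ν (m + 1) t) =O[𝓝[>] 0] (fun t : ℝ => t ^ m) := by
  obtain ⟨C, hC0, hC⟩ := basic_bound H
  refine IsBigO.of_bound (1 + 2 * C) ?_
  filter_upwards [ev_small] with t ht
  have h := hF t ht.1 ht.2
  have := h.prob
  obtain ⟨h1, h2⟩ := hC t (ν t) ht.1 ht.2 h
  have h3 := (pow_moment H h ht.1 ht.2 (k := m + 1) le_rfl).1
  rw [Real.norm_of_nonneg (mo_nonneg hF ht.1 ht.2 _), Real.norm_of_nonneg (pow_nonneg ht.1.le _)]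
  have h4 : t * mo ν (m + 1) t ≤ (1 + 2 * C) * t ^ (m + 1) := by
    unfold mo
    rw [← integral_const_mul]
    calc ∫ y, t * y ^ (m + 1) ∂(ν t) ≤ ∫ y, (t ^ (m + 1) + 2 * (y ^ (m + 2) / (1 + y))) ∂(ν t) := by
          apply integral_mono_ae (h3.const_mul _) ((integrable_const _).add (h1.const_mul 2))
          filter_upwards [h.nonneg] with y hy using t_pow_le ht.1 ht.2 hy
      _ = t ^ (m + 1) + 2 * ∫ y, y ^ (m + 2) / (1 + y) ∂(ν t) := by
          rw [integral_add (integrable_const _) (h1.const_mul 2), integral_const_mul]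
          simp
      _ ≤ _ := by linarith
  have h5 : t * mo ν (m + 1) t ≤ t * ((1 + 2 * C) * t ^ m) := by
    calc _ ≤ _ := h4
      _ = _ := by ring
  exact le_of_mul_le_mul_left h5 ht.1

lemma Adm.pow_mul (H : Hyp ζ m) (hFam : Fam ζ ν) {p : ℕ} (hp : p + 1 ≤ m + 1) {F : ℝ → ℝ} {A : ℝ}
    (hF : Adm m ν p F A) {j : ℕ} (hj : 1 ≤ j) : Adm m ν (p + 1) (fun t => t ^ j * F t) 0 := by
  obtain ⟨P, hP⟩ := hF
  refine ⟨Polynomial.X ^ j * P, ?_⟩
  have h1 : (fun t => t ^ j * (F t - P.eval t - A * mo ν (m + 1) t)) =O[𝓝[>] 0]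
      (fun t : ℝ => t ^ (p + 1)) := by
    have h2 : (fun t : ℝ => t ^ j) =O[𝓝[>] 0] (fun t : ℝ => t ^ 1) := pow_bigO hj
    refine (h2.mul hP).congr_right fun t => ?_
    ring
  have h3 : (fun t => A * (t ^ j * mo ν (m + 1) t)) =O[𝓝[>] 0] (fun t : ℝ => t ^ (p + 1)) := by
    apply IsBigO.const_mul_left
    have h2 : (fun t : ℝ => t ^ j) =O[𝓝[>] 0] (fun t : ℝ => t ^ 1) := pow_bigO hj
    have h4 : (fun t : ℝ => t ^ j * mo ν (m + 1) t) =O[𝓝[>] 0] (fun t : ℝ => t ^ (m + 1)) := by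
      refine (h2.mul (mo_top H hFam)).congr_right fun t => ?_
      ring
    exact h4.trans (pow_bigO hp)
  refine (h1.add h3).congr_left fun t => ?_
  simp only [Polynomial.eval_mul, Polynomial.eval_pow, Polynomial.eval_X]
  ring

/-! ### the functions `F k l = E[Y^k (1+Y)^(-l)]` -/

/-- `E[Y^k (1+Y)^(-l)]` -/
def FF (ν : ℝ → Measure ℝ) (k l : ℕ) (t : ℝ) : ℝ := ∫ y, y ^ k * (1 / (1 + y) ^ l) ∂(ν t)

lemma inv_pow_le {y : ℝ} (hy : 0 ≤ y) (l : ℕ) : 0 ≤ 1 / (1 + y) ^ l ∧ 1 / (1 + y) ^ l ≤ 1 := by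
  have h1 : 1 ≤ (1 + y) ^ l := one_le_pow₀ (by linarith)
  constructor
  · positivity
  · rw [div_le_one (by linarith)]; exact h1

lemma FF_integrable (H : Hyp ζ m) (hF : Fam ζ ν) {t : ℝ} (ht : 0 < t) (ht1 : t ≤ 1) {k : ℕ}
    (hk : k ≤ m + 1) (l : ℕ) : Integrable (fun y => y ^ k * (1 / (1 + y) ^ l)) (ν t) := by
  have h := hF t ht ht1
  refine Integrable.mono' (pow_moment H h ht ht1 hk).1 (Measurable.aestronglyMeasurable (by fun_prop)) ?_
  filter_upwards [h.nonneg] with y hy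
  have h1 := inv_pow_le hy l
  rw [Real.norm_of_nonneg (mul_nonneg (by positivity) h1.1)]
  have : 0 ≤ y ^ k := by positivity
  nlinarith [h1.2]

lemma FF_rec (H : Hyp ζ m) (hF : Fam ζ ν) {t : ℝ} (ht : 0 < t) (ht1 : t ≤ 1) {k : ℕ}
    (hk : k ≤ m) (l : ℕ) : FF ν k (l + 1) t = FF ν k l t - FF ν (k + 1) (l + 1) t := by
  have h := hF t ht ht1
  unfold FF
  rw [← integral_sub (FF_integrable H hF ht ht1 (by omega) l)
    (FF_integrable H hF ht ht1 (by omega) (l + 1))]
  apply integral_congr_ae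
  filter_upwards [h.nonneg] with y hy
  have : 1 + y ≠ 0 := by linarith
  field_simp
  ring

lemma FF_sum (H : Hyp ζ m) (hF : Fam ζ ν) {t : ℝ} (ht : 0 < t) (ht1 : t ≤ 1) {k : ℕ}
    (hk : k ≤ m) (l : ℕ) :
    FF ν k l t = FF ν k 0 t - ∑ i ∈ Finset.range l, FF ν (k + 1) (i + 1) t := by
  induction l with
  | zero => simp
  | succ l ih =>
    rw [FF_rec H hF ht ht1 hk l, ih, Finset.sum_range_succ]
    ring

lemma FF_stat (H : Hyp ζ m) (hF : Fam ζ ν) {t : ℝ} (ht : 0 < t) (ht1 : t ≤ 1) {k : ℕ}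
    (hk : k ≤ m) :
    FF ν k 0 t = rho ζ k * (∑ i ∈ Finset.range k, (k.choose i : ℝ) * (t ^ (k - i) * FF ν i k t) +
      FF ν k k t) := by
  have h := hF t ht ht1
  have e0 : FF ν k 0 t = ∫ y, y ^ k ∂(ν t) := by simp [FF]
  rw [e0, (pow_moment H h ht ht1 (show k ≤ m + 1 by omega)).2]
  congr 1
  have hi : ∀ i ∈ Finset.range (k + 1), Integrable
      (fun y => (k.choose i : ℝ) * (t ^ (k - i) * (y ^ i * (1 / (1 + y) ^ k)))) (ν t) := by
    intro i hi
    have : i ≤ m + 1 := by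
      have := Finset.mem_range.1 hi
      omega
    exact ((FF_integrable H hF ht ht1 this k).const_mul _).const_mul _
  have e : (fun y : ℝ => hat t y ^ k) =
      fun y => ∑ i ∈ Finset.range (k + 1), (k.choose i : ℝ) * (t ^ (k - i) * (y ^ i * (1 / (1 + y) ^ k)))
      := by
    funext y
    unfold hat
    rw [div_pow, add_comm t y, add_pow, Finset.sum_div]
    refine Finset.sum_congr rfl fun i _ => ?_
    ring
  rw [e, integral_finsetSum _ hi, Finset.sum_range_succ]
  congr 1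
  · refine Finset.sum_congr rfl fun i _ => ?_
    rw [integral_const_mul, integral_const_mul]
    rfl
  · rw [integral_const_mul, integral_const_mul]
    simp [FF]

lemma FF_top (H : Hyp ζ m) (hF : Fam ζ ν) (l : ℕ) :
    (fun t => FF ν (m + 1) l t - mo ν (m + 1) t) =O[𝓝[>] 0] (fun t : ℝ => t ^ (m + 1)) := by
  obtain ⟨C, hC0, hC⟩ := basic_bound H
  refine IsBigO.of_bound (l * C) ?_
  filter_upwards [ev_small] with t ht
  have h := hF t ht.1 ht.2
  obtain ⟨h1, h2⟩ := hC t (ν t) ht.1 ht.2 h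
  have h3 := (pow_moment H h ht.1 ht.2 (k := m + 1) le_rfl).1
  have h4 := FF_integrable H hF ht.1 ht.2 (le_refl (m + 1)) l
  unfold FF mo
  rw [← integral_sub h4 h3, Real.norm_eq_abs, Real.norm_of_nonneg (pow_nonneg ht.1.le _)]
  calc |∫ y, (y ^ (m + 1) * (1 / (1 + y) ^ l) - y ^ (m + 1)) ∂(ν t)|
      ≤ ∫ y, |y ^ (m + 1) * (1 / (1 + y) ^ l) - y ^ (m + 1)| ∂(ν t) := abs_integral_le_integral_abs
    _ ≤ ∫ y, l * (y ^ (m + 2) / (1 + y)) ∂(ν t) := by
        apply integral_mono_ae (h4.sub h3).abs (h1.const_mul _)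
        filter_upwards [h.nonneg] with y hy
        have hb := bern hy l
        have hb0 := bern_nonneg hy l
        have e : y ^ (m + 1) * (1 / (1 + y) ^ l) - y ^ (m + 1) =
          -(y ^ (m + 1) * (1 - 1 / (1 + y) ^ l)) := by ring
        simp only [Pi.sub_apply]
        rw [e, abs_neg, abs_of_nonneg (by positivity)]
        calc y ^ (m + 1) * (1 - 1 / (1 + y) ^ l) ≤ y ^ (m + 1) * (l * (y / (1 + y))) :=
              mul_le_mul_of_nonneg_left hb (by positivity)
          _ = _ := by ring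
    _ = l * ∫ y, y ^ (m + 2) / (1 + y) ∂(ν t) := integral_const_mul _ _
    _ ≤ l * (C * t ^ (m + 1)) := mul_le_mul_of_nonneg_left h2 (by positivity)
    _ = _ := by ring

/-- the inductive step -/
lemma step (H : Hyp ζ m) (hF : Fam ζ ν) {p : ℕ} (hp : p + 1 ≤ m + 1)
    (ih : ∀ k ≤ m + 1, ∀ l, ∃ A, Adm m ν p (FF ν k l) A) (j : ℕ) :
    ∀ k, k + j = m + 1 → ∃ B : ℕ → ℝ, (∀ l, 0 ≤ B l) ∧ (1 ≤ k → ∀ l, 0 < B l) ∧
      ∀ l, Adm m ν (p + 1) (FF ν k l) ((-1) ^ j * B l) := by
  induction j with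
  | zero =>
    intro k hk
    have hk' : k = m + 1 := by omega
    subst hk'
    refine ⟨fun _ => 1, fun _ => by norm_num, fun _ _ => by norm_num, fun l => ⟨0, ?_⟩⟩
    refine ((FF_top H hF l).trans (pow_bigO hp)).congr_left fun t => ?_
    simp
  | succ j ihj =>
    intro k hk
    obtain ⟨B', hB'0, hB'1, hB'⟩ := ihj (k + 1) (by omega)
    have hB'pos := hB'1 (by omega)
    have hkm : k ≤ m := by omega
    -- the case l = 0
    have h0 : ∃ b : ℝ, 0 ≤ b ∧ (1 ≤ k → 0 < b) ∧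
        Adm m ν (p + 1) (FF ν k 0) ((-1) ^ (j + 1) * b) := by
      rcases Nat.eq_zero_or_pos k with rfl | hk0
      · refine ⟨0, le_rfl, by omega, ?_⟩
        rw [mul_zero]
        refine (Adm.const 1).congr ?_
        filter_upwards [ev_small] with t ht
        have := (hF t ht.1 ht.2).prob
        simp [FF]
      · have hρ1 := rho_lt H hk0 hkm
        have hρ0 := rho_pos H (show k ≤ m + 1 by omega)
        have hne : 1 - rho ζ k ≠ 0 := by linarith
        have hq : 0 < rho ζ k / (1 - rho ζ k) := div_pos hρ0 (by linarith)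
        have hsum : 0 < ∑ i ∈ Finset.range k, B' (i + 1) :=
          Finset.sum_pos (fun i _ => hB'pos (i + 1)) ⟨0, Finset.mem_range.2 hk0⟩
        refine ⟨rho ζ k / (1 - rho ζ k) * ∑ i ∈ Finset.range k, B' (i + 1), by positivity,
          fun _ => by positivity, ?_⟩
        have a1 : Adm m ν (p + 1) (fun t => ∑ i ∈ Finset.range k,
            (k.choose i : ℝ) * (t ^ (k - i) * FF ν i k t)) (∑ i ∈ Finset.range k,
            (k.choose i : ℝ) * 0) := by
          apply Adm.sum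
          intro i hi
          have hik := Finset.mem_range.1 hi
          obtain ⟨A, hA⟩ := ih i (by omega) k
          exact (Adm.pow_mul H hF hp hA (show 1 ≤ k - i by omega)).const_mul _
        have a2 : Adm m ν (p + 1) (fun t => ∑ i ∈ Finset.range k, FF ν (k + 1) (i + 1) t)
            (∑ i ∈ Finset.range k, (-1) ^ j * B' (i + 1)) :=
          Adm.sum _ fun i _ => hB' (i + 1)
        have a3 := (a1.add (a2.const_mul (-1))).const_mul (rho ζ k / (1 - rho ζ k))
        have e : rho ζ k / (1 - rho ζ k) * (∑ i ∈ Finset.range k, (k.choose i : ℝ) * 0 +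
            -1 * ∑ i ∈ Finset.range k, (-1) ^ j * B' (i + 1)) =
            (-1) ^ (j + 1) * (rho ζ k / (1 - rho ζ k) * ∑ i ∈ Finset.range k, B' (i + 1)) := by
          rw [← Finset.mul_sum]
          simp only [mul_zero, Finset.sum_const_zero, zero_add]
          ring
        rw [e] at a3
        refine a3.congr ?_
        filter_upwards [ev_small] with t ht
        have e1 := FF_stat H hF ht.1 ht.2 hkm
        have e2 := FF_sum H hF ht.1 ht.2 hkm k
        rw [e2] at e1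
        set S1 := ∑ i ∈ Finset.range k, (k.choose i : ℝ) * (t ^ (k - i) * FF ν i k t)
        set S2 := ∑ i ∈ Finset.range k, FF ν (k + 1) (i + 1) t
        have e3 : (1 - rho ζ k) * FF ν k 0 t = rho ζ k * (S1 - S2) := by linear_combination e1
        rw [div_mul_eq_mul_div, div_eq_iff hne]
        linarith
    obtain ⟨b, hb0, hb1, hb⟩ := h0
    refine ⟨fun l => b + ∑ i ∈ Finset.range l, B' (i + 1), ?_, ?_, ?_⟩
    · intro l
      have : 0 ≤ ∑ i ∈ Finset.range l, B' (i + 1) := Finset.sum_nonneg fun i _ => hB'0 _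
      positivity
    · intro hk1 l
      have : 0 ≤ ∑ i ∈ Finset.range l, B' (i + 1) := Finset.sum_nonneg fun i _ => hB'0 _
      have := hb1 hk1
      positivity
    · intro l
      have a2 : Adm m ν (p + 1) (fun t => ∑ i ∈ Finset.range l, FF ν (k + 1) (i + 1) t)
          (∑ i ∈ Finset.range l, (-1) ^ j * B' (i + 1)) :=
        Adm.sum _ fun i _ => hB' (i + 1)
      have a3 := hb.add (a2.const_mul (-1))
      have e : (-1) ^ (j + 1) * b + -1 * ∑ i ∈ Finset.range l, (-1) ^ j * B' (i + 1) =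
          (-1) ^ (j + 1) * (b + ∑ i ∈ Finset.range l, B' (i + 1)) := by
        rw [← Finset.mul_sum]
        ring
      rw [e] at a3
      refine a3.congr ?_
      filter_upwards [ev_small] with t ht
      rw [FF_sum H hF ht.1 ht.2 hkm l]
      ring

lemma all_adm (H : Hyp ζ m) (hF : Fam ζ ν) (p : ℕ) (hp : p ≤ m) :
    ∀ k ≤ m + 1, ∀ l, ∃ A, Adm m ν p (FF ν k l) A := by
  induction p with
  | zero =>
    intro k hk l
    refine ⟨0, Adm.of_bigO (IsBigO.of_bound (rho ζ k) ?_)⟩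
    filter_upwards [ev_small] with t ht
    have h := hF t ht.1 ht.2
    have := h.prob
    obtain ⟨h1, h2⟩ := pow_moment H h ht.1 ht.2 hk
    rw [pow_zero, norm_one, mul_one, Real.norm_eq_abs]
    unfold FF
    calc |∫ y, y ^ k * (1 / (1 + y) ^ l) ∂(ν t)| ≤ ∫ y, |y ^ k * (1 / (1 + y) ^ l)| ∂(ν t) :=
          abs_integral_le_integral_abs
      _ ≤ ∫ y, y ^ k ∂(ν t) := by
          apply integral_mono_ae (FF_integrable H hF ht.1 ht.2 hk l).abs h1
          filter_upwards [h.nonneg] with y hy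
          have h3 := inv_pow_le hy l
          rw [abs_of_nonneg (mul_nonneg (by positivity) h3.1)]
          have : 0 ≤ y ^ k := by positivity
          nlinarith [h3.2]
      _ = rho ζ k * ∫ y, hat t y ^ k ∂(ν t) := h2
      _ ≤ rho ζ k * 1 := by
          apply mul_le_mul_of_nonneg_left _ (rho_pos H hk).le
          calc ∫ y, hat t y ^ k ∂(ν t) ≤ ∫ _, (1:ℝ) ∂(ν t) := by
                apply integral_mono_ae (hat_pow_integrable h ht.1 ht.2 k) (integrable_const _)
                filter_upwards [h.nonneg] with y hy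
                exact pow_le_one₀ (hat_pos ht.1 hy).le (hat_le_one ht.2 hy)
            _ = 1 := by simp
      _ = rho ζ k := mul_one _
  | succ p ih =>
    intro k hk l
    obtain ⟨B, _, _, hB⟩ := step H hF (show p + 1 ≤ m + 1 by omega) (ih (by omega)) (m + 1 - k) k
      (by omega)
    exact ⟨_, hB l⟩

/-- The expansion of `L(t) = E log(1+Y)`. -/
lemma L_adm (H : Hyp ζ m) (hF : Fam ζ ν) :
    ∃ b : ℝ, 0 < b ∧ Adm m ν (m + 1) (fun t => ∫ y, Real.log (1 + y) ∂(ν t)) ((-1) ^ m * b) := by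
  have hstep := step H hF (le_refl (m + 1)) (all_adm H hF m le_rfl)
  have hB : ∀ k : ℕ, ∃ b : ℝ, 1 ≤ k → k ≤ m + 1 → 0 < b ∧
      Adm m ν (m + 1) (FF ν k 0) ((-1) ^ (m + 1 - k) * b) := by
    intro k
    by_cases hk : 1 ≤ k ∧ k ≤ m + 1
    · obtain ⟨B, _, hB1, hB2⟩ := hstep (m + 1 - k) k (by omega)
      exact ⟨B 0, fun _ _ => ⟨hB1 hk.1 0, hB2 0⟩⟩
    · exact ⟨0, fun h1 h2 => absurd ⟨h1, h2⟩ hk⟩
  choose b hb using hB
  refine ⟨∑ i ∈ Finset.range (m + 1), b (i + 1) / (i + 1), ?_, ?_⟩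
  · apply Finset.sum_pos
    · intro i hi
      have := Finset.mem_range.1 hi
      have := (hb (i + 1) (by omega) (by omega)).1
      positivity
    · exact ⟨0, Finset.mem_range.2 (Nat.succ_pos m)⟩
  have a1 : Adm m ν (m + 1) (fun t => ∑ i ∈ Finset.range (m + 1),
      ((-1 : ℝ) ^ i / (i + 1)) * FF ν (i + 1) 0 t)
      (∑ i ∈ Finset.range (m + 1), ((-1 : ℝ) ^ i / (i + 1)) * ((-1) ^ (m + 1 - (i + 1)) * b (i + 1)))
      := by
    apply Adm.sum
    intro i hi
    have := Finset.mem_range.1 hi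
    exact ((hb (i + 1) (by omega) (by omega)).2).const_mul _
  have e : ∑ i ∈ Finset.range (m + 1), ((-1 : ℝ) ^ i / (i + 1)) *
      ((-1) ^ (m + 1 - (i + 1)) * b (i + 1)) = (-1) ^ m * ∑ i ∈ Finset.range (m + 1),
      b (i + 1) / (i + 1) := by
    rw [Finset.mul_sum]
    refine Finset.sum_congr rfl fun i hi => ?_
    have := Finset.mem_range.1 hi
    have e1 : (-1 : ℝ) ^ m = (-1) ^ i * (-1) ^ (m + 1 - (i + 1)) := by
      rw [← pow_add]
      congr 1
      omega
    rw [e1]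
    ring
  rw [e] at a1
  -- remainder
  obtain ⟨C, hC0, hC⟩ := basic_bound H
  have a2 : Adm m ν (m + 1) (fun t => ∫ y, Real.log (1 + y) ∂(ν t) - ∑ i ∈ Finset.range (m + 1),
      ((-1 : ℝ) ^ i / (i + 1)) * FF ν (i + 1) 0 t) 0 := by
    apply Adm.of_bigO
    refine IsBigO.of_bound C ?_
    filter_upwards [ev_small] with t ht
    have h := hF t ht.1 ht.2
    have := h.prob
    obtain ⟨h1, h2⟩ := hC t (ν t) ht.1 ht.2 h
    have hi : ∀ i ∈ Finset.range (m + 1), Integrable
        (fun y => (-1 : ℝ) ^ i * (y ^ (i + 1) / (i + 1))) (ν t) := by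
      intro i hi
      have := Finset.mem_range.1 hi
      exact ((pow_moment H h ht.1 ht.2 (show i + 1 ≤ m + 1 by omega)).1.div_const _).const_mul _
    have his : Integrable (fun y => ∑ i ∈ Finset.range (m + 1),
        (-1 : ℝ) ^ i * (y ^ (i + 1) / (i + 1))) (ν t) := integrable_finsetSum _ hi
    have hl : Integrable (fun y => Real.log (1 + y)) (ν t) := by
      have h5 := (pow_moment H h ht.1 ht.2 (show 1 ≤ m + 1 by omega)).1
      refine Integrable.mono' h5 (Measurable.aestronglyMeasurable (by fun_prop)) ?_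
      filter_upwards [h.nonneg] with y hy
      rw [Real.norm_of_nonneg (Real.log_nonneg (by linarith))]
      have := Real.log_le_sub_one_of_pos (show 0 < 1 + y by linarith)
      simp only [pow_one]
      linarith
    have e2 : ∑ i ∈ Finset.range (m + 1), ((-1 : ℝ) ^ i / (i + 1)) * FF ν (i + 1) 0 t =
        ∫ y, ∑ i ∈ Finset.range (m + 1), (-1 : ℝ) ^ i * (y ^ (i + 1) / (i + 1)) ∂(ν t) := by
      rw [integral_finsetSum _ hi]
      refine Finset.sum_congr rfl fun i _ => ?_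
      rw [integral_const_mul, integral_div]
      simp only [FF, pow_zero, div_one, mul_one]
      ring
    rw [e2, ← integral_sub hl his, Real.norm_eq_abs, Real.norm_of_nonneg (pow_nonneg ht.1.le _)]
    calc _ ≤ ∫ y, |Real.log (1 + y) - ∑ i ∈ Finset.range (m + 1),
          (-1 : ℝ) ^ i * (y ^ (i + 1) / (i + 1))| ∂(ν t) := abs_integral_le_integral_abs
      _ ≤ ∫ y, y ^ (m + 2) / (1 + y) ∂(ν t) := by
          apply integral_mono_ae (hl.sub his).abs h1
          filter_upwards [h.nonneg] with y hy using log_taylor (m + 1) (by omega) hy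
      _ ≤ _ := h2
  have a3 := a2.add a1
  rw [zero_add] at a3
  refine a3.congr (Eventually.of_forall fun t => ?_)
  ring

end

end Pool.Agent.H646R3.DH
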