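import Mathlib

set_option autoImplicit false
open MeasureTheory Filter Topology Set

namespace Pool.Agent.H646R3.DH

noncomputable section

/-- The map `y ↦ (t + y) / (1 + y)`. -/
def hat (t y : ℝ) : ℝ := (t + y) / (1 + y)

/-- `ν` is a law of `Y ≥ 0` with `Y = Z (t + Y) / (1 + Y)` in law. -/
structure IsInv (ζ : Measure ℝ) (t : ℝ) (ν : Measure ℝ) : Prop where
  prob : IsProbabilityMeasure ν
  nonneg : ∀ᵐ y ∂ν, 0 ≤ y
  inv : (ζ.prod ν).map (fun p => p.1 * hat t p.2) = ν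

/-- `Z > 0` is not constant and `E Z^(m+1) = 1`. -/
structure Hyp (ζ : Measure ℝ) (m : ℕ) : Prop where
  prob : IsProbabilityMeasure ζ
  pos : ∀ᵐ z ∂ζ, 0 < z
  mom : ∫ z, z ^ (m + 1) ∂ζ = 1
  nc : ¬ ∀ᵐ z ∂ζ, z = 1

lemma hat_measurable (t : ℝ) : Measurable (hat t) := by
  unfold hat
  fun_prop

section pointwise

variable {t y : ℝ}

lemma le_hat (ht1 : t ≤ 1) (hy : 0 ≤ y) : t ≤ hat t y := by
  unfold hat
  rw [le_div_iff₀ (by linarith)]
  nlinarith

lemma hat_pos (ht : 0 < t) (hy : 0 ≤ y) : 0 < hat t y := by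
  unfold hat
  positivity

lemma hat_le_one (ht1 : t ≤ 1) (hy : 0 ≤ y) : hat t y ≤ 1 := by
  unfold hat
  rw [div_le_one (by linarith)]
  linarith

lemma hat_le (ht : 0 < t) (hy : 0 ≤ y) : hat t y ≤ t + y := by
  unfold hat
  rw [div_le_iff₀ (by linarith)]
  nlinarith

lemma div_le_hat (ht : 0 < t) (hy : 0 ≤ y) : y / (1 + y) ≤ hat t y := by
  unfold hat
  gcongr
  linarith

lemma pow_diff (ht : 0 ≤ t) (hy : 0 ≤ y) (m : ℕ) :
    (t + y) ^ (m + 1) - y ^ (m + 1) ≤ (m + 1) * t * (t + y) ^ m := by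
  induction m with
  | zero => simp
  | succ k ih =>
    have h1 : y ^ (k + 1) ≤ (t + y) ^ (k + 1) := pow_le_pow_left₀ hy (by linarith) _
    have h2 : (t + y) ^ (k + 1 + 1) - y ^ (k + 1 + 1) =
        (t + y) * ((t + y) ^ (k + 1) - y ^ (k + 1)) + t * y ^ (k + 1) := by ring
    rw [h2]
    have h3 : (t + y) * ((t + y) ^ (k + 1) - y ^ (k + 1)) ≤
        (t + y) * ((k + 1) * t * (t + y) ^ k) := mul_le_mul_of_nonneg_left ih (by linarith)
    have h4 : t * y ^ (k + 1) ≤ t * (t + y) ^ (k + 1) := mul_le_mul_of_nonneg_left h1 ht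
    push_cast
    calc _ ≤ (t + y) * ((k + 1) * t * (t + y) ^ k) + t * (t + y) ^ (k + 1) := by linarith
      _ = _ := by ring

lemma pow_diff_nonneg (ht : 0 ≤ t) (hy : 0 ≤ y) (m : ℕ) :
    0 ≤ (t + y) ^ m - y ^ m := by
  have := pow_le_pow_left₀ hy (show y ≤ t + y by linarith) m
  linarith

/-- The basic pointwise lower bound. -/
lemma base_ineq (ht : 0 < t) (hy : 0 ≤ y) (m : ℕ) :
    y ^ (m + 2) / (1 + y) - (m + 1) * t * (t + y) ^ m ≤ y ^ (m + 1) - hat t y ^ (m + 1) := by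
  have h1 : hat t y ^ (m + 1) ≤ (t + y) ^ (m + 1) / (1 + y) := by
    unfold hat
    rw [div_pow]
    apply div_le_div_of_nonneg_left (by positivity) (by linarith)
    calc (1 + y) = (1 + y) ^ 1 := (pow_one _).symm
      _ ≤ (1 + y) ^ (m + 1) := pow_le_pow_right₀ (by linarith) (by omega)
  have h2 := pow_diff ht.le hy m
  have h3 : (t + y) ^ (m + 1) / (1 + y) ≤ (y ^ (m + 1)) / (1 + y) + (m + 1) * t * (t + y) ^ m := by
    have h4 : (t + y) ^ (m + 1) ≤ y ^ (m + 1) + (m + 1) * t * (t + y) ^ m := by linarith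
    have h5 : 0 ≤ (m + 1) * t * (t + y) ^ m := by positivity
    calc (t + y) ^ (m + 1) / (1 + y) ≤ (y ^ (m + 1) + (m + 1) * t * (t + y) ^ m) / (1 + y) := by
          gcongr
      _ = y ^ (m + 1) / (1 + y) + (m + 1) * t * (t + y) ^ m / (1 + y) := by rw [add_div]
      _ ≤ _ := by
          have := div_le_self h5 (show 1 ≤ 1 + y by linarith)
          linarith
  have h6 : y ^ (m + 1) = y ^ (m + 1) / (1 + y) + y ^ (m + 2) / (1 + y) := by
    field_simp
    ring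
  linarith

/-- `1 - (1+y)^(-l) ≤ l y/(1+y)`, multiplied out. -/
lemma bern (hy : 0 ≤ y) (l : ℕ) : 1 - 1 / (1 + y) ^ l ≤ l * (y / (1 + y)) := by
  have h := one_add_mul_le_pow (a := -(y / (1 + y))) (by
    have : y / (1 + y) ≤ 1 := by rw [div_le_one (by linarith)]; linarith
    linarith) l
  have h2 : 1 + -(y / (1 + y)) = 1 / (1 + y) := by
    field_simp
    ring
  rw [h2, div_pow, one_pow] at h
  linarith

lemma bern_nonneg (hy : 0 ≤ y) (l : ℕ) : 0 ≤ 1 - 1 / (1 + y) ^ l := by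
  have h1 : 1 ≤ (1 + y) ^ l := one_le_pow₀ (by linarith)
  have : 1 / (1 + y) ^ l ≤ 1 := by rw [div_le_one (by linarith)]; exact h1
  linarith

end pointwise

/-- strict Bernoulli for real powers: `z^s ≤ 1 + (s/n)(z^n - 1)`. -/
lemma rpow_le_of_pos {z s : ℝ} {n : ℕ} (hz : 0 < z) (hs : 0 < s) (hsn : s < n) :
    z ^ s ≤ 1 + (s / n) * (z ^ n - 1) := by
  have hn : 0 < (n : ℝ) := hs.trans hsn
  have hw : 0 < z ^ n := pow_pos hz n
  have h1 : z ^ s = (1 + (z ^ n - 1)) ^ (s / n) := by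
    rw [add_sub_cancel, ← Real.rpow_natCast, ← Real.rpow_mul hz.le]
    congr 1
    field_simp
  rw [h1]
  have := rpow_one_add_le_one_add_mul_self (s := z ^ n - 1) (by linarith) (p := s / n)
    (by positivity) (by rw [div_le_one hn]; exact hsn.le)
  exact this

lemma rpow_lt_of_pos {z s : ℝ} {n : ℕ} (hz : 0 < z) (hz1 : z ≠ 1) (hs : 0 < s) (hsn : s < n) :
    z ^ s < 1 + (s / n) * (z ^ n - 1) := by
  have hn : 0 < (n : ℝ) := hs.trans hsn
  have hn0 : n ≠ 0 := by rintro rfl; simp at hn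
  have hw : 0 < z ^ n := pow_pos hz n
  have h1 : z ^ s = (1 + (z ^ n - 1)) ^ (s / n) := by
    rw [add_sub_cancel, ← Real.rpow_natCast, ← Real.rpow_mul hz.le]
    congr 1
    field_simp
  rw [h1]
  have h2 : z ^ n - 1 ≠ 0 := by
    intro h
    have h3 : z ^ n = 1 := by linarith
    exact hz1 ((pow_eq_one_iff_of_nonneg hz.le hn0).1 h3)
  exact rpow_one_add_lt_one_add_mul_self (s := z ^ n - 1) (by linarith) h2 (p := s / n)
    (by positivity) (by rw [div_lt_one hn]; exact hsn)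

end

end Pool.Agent.H646R3.DH
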