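import Pool.Agent.H646R3.DH.Moments

set_option autoImplicit false
open MeasureTheory Filter Topology Set

namespace Pool.Agent.H646R3.DH

noncomputable section

variable {ζ : Measure ℝ} {m : ℕ} {t : ℝ} {ν : Measure ℝ}

lemma half_moment (H : Hyp ζ m) :
    ∃ C : ℝ, 0 ≤ C ∧ ∀ (t : ℝ) (ν : Measure ℝ), 0 < t → t ≤ 1 → IsInv ζ t ν →
      Integrable (fun y => ((t + y) / t) ^ m * √((t + y) / t)) ν ∧
      ∫ y, ((t + y) / t) ^ m * √((t + y) / t) ∂ν ≤ C := by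
  obtain ⟨C, hC0, hC⟩ := smoment H (s := m + 1 / 2) (by positivity) (by linarith)
  refine ⟨C, hC0, fun t ν ht ht1 h => ?_⟩
  obtain ⟨h1, h2⟩ := hC t ν ht ht1 h
  have e : (fun y => ((t + y) / t) ^ ((m : ℝ) + 1 / 2)) =ᵐ[ν]
      fun y => ((t + y) / t) ^ m * √((t + y) / t) := by
    filter_upwards [h.nonneg] with y hy
    have : 0 < (t + y) / t := by positivity
    rw [Real.rpow_add this, Real.rpow_natCast, Real.sqrt_eq_rpow]
  exact ⟨h1.congr e, by rwa [integral_congr_ae e] at h2⟩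

/-- a function bounded pointwise by `c t^j * W^m √W` -/
lemma int_le_of_half {C : ℝ} (h : IsInv ζ t ν)
    (hC : Integrable (fun y => ((t + y) / t) ^ m * √((t + y) / t)) ν ∧
      ∫ y, ((t + y) / t) ^ m * √((t + y) / t) ∂ν ≤ C)
    {f : ℝ → ℝ} (hf : Measurable f) {c : ℝ} (hc : 0 ≤ c)
    (hb : ∀ y, 0 ≤ y → |f y| ≤ c * (((t + y) / t) ^ m * √((t + y) / t))) :
    Integrable f ν ∧ |∫ y, f y ∂ν| ≤ c * C := by
  have hi : Integrable f ν := by
    refine Integrable.mono' (hC.1.const_mul c) hf.aestronglyMeasurable ?_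
    filter_upwards [h.nonneg] with y hy using hb y hy
  refine ⟨hi, ?_⟩
  calc |∫ y, f y ∂ν| ≤ ∫ y, |f y| ∂ν := abs_integral_le_integral_abs
    _ ≤ ∫ y, c * (((t + y) / t) ^ m * √((t + y) / t)) ∂ν := by
        apply integral_mono_ae hi.abs (hC.1.const_mul c)
        filter_upwards [h.nonneg] with y hy using hb y hy
    _ = c * ∫ y, ((t + y) / t) ^ m * √((t + y) / t) ∂ν := integral_const_mul _ _
    _ ≤ c * C := mul_le_mul_of_nonneg_left hC.2 hc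

lemma one_le_W (ht : 0 < t) {y : ℝ} (hy : 0 ≤ y) : 1 ≤ (t + y) / t := by
  rw [le_div_iff₀ ht]; linarith

lemma W_pow_le (ht : 0 < t) {y : ℝ} (hy : 0 ≤ y) {k : ℕ} (hk : k ≤ m) :
    ((t + y) / t) ^ k ≤ ((t + y) / t) ^ m * √((t + y) / t) := by
  have h1 := one_le_W ht hy
  have h2 : 1 ≤ √((t + y) / t) := by rw [Real.one_le_sqrt]; exact h1
  have h3 : ((t + y) / t) ^ k ≤ ((t + y) / t) ^ m := pow_le_pow_right₀ h1 hk
  have h4 : 0 ≤ ((t + y) / t) ^ m := by positivity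
  nlinarith

lemma add_pow_eq (ht : 0 < t) (y : ℝ) (k : ℕ) : (t + y) ^ k = t ^ k * ((t + y) / t) ^ k := by
  rw [div_pow]
  field_simp

/-- the basic bound -/
lemma basic_bound (H : Hyp ζ m) :
    ∃ C : ℝ, 0 ≤ C ∧ ∀ (t : ℝ) (ν : Measure ℝ), 0 < t → t ≤ 1 → IsInv ζ t ν →
      Integrable (fun y => y ^ (m + 2) / (1 + y)) ν ∧
      ∫ y, y ^ (m + 2) / (1 + y) ∂ν ≤ C * t ^ (m + 1) := by
  obtain ⟨C, hC0, hC⟩ := half_moment H
  refine ⟨(m + 1) * C, by positivity, fun t ν ht ht1 h => ?_⟩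
  have := h.prob
  obtain ⟨hi, he⟩ := pow_moment H h ht ht1 (k := m + 1) le_rfl
  rw [rho_top H, one_mul] at he
  have hih : Integrable (fun y => hat t y ^ (m + 1)) ν := by
    refine hat_bdd_integrable h ht ht1 (φ := fun w => w ^ (m + 1)) (by fun_prop)
        (C := 1) ?_
    intro w hw hw1
    have hw0 : 0 ≤ w := ht.le.trans hw
    rw [abs_of_nonneg (pow_nonneg hw0 _)]
    exact pow_le_one₀ hw0 hw1
  have h1 : Integrable (fun y => y ^ (m + 2) / (1 + y)) ν := by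
    refine Integrable.mono' hi (Measurable.aestronglyMeasurable (by fun_prop)) ?_
    filter_upwards [h.nonneg] with y hy
    rw [Real.norm_of_nonneg (by positivity), div_le_iff₀ (by linarith)]
    have : 0 ≤ y ^ (m + 1) := by positivity
    calc y ^ (m + 2) = y ^ (m + 1) * y := by ring
      _ ≤ y ^ (m + 1) * (1 + y) := by nlinarith
  refine ⟨h1, ?_⟩
  obtain ⟨h2, h3⟩ := int_le_of_half h (hC t ν ht ht1 h) (f := fun y => (m + 1) * t * (t + y) ^ m)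
    (by fun_prop) (c := (m + 1) * t ^ (m + 1)) (by positivity) (by
      intro y hy
      rw [abs_of_nonneg (by positivity), add_pow_eq ht y m]
      have := W_pow_le (m := m) ht hy le_rfl
      calc (m + 1) * t * (t ^ m * ((t + y) / t) ^ m) = (m + 1) * t ^ (m + 1) * ((t + y) / t) ^ m := by
            ring
        _ ≤ _ := mul_le_mul_of_nonneg_left this (by positivity))
  have h4 : ∫ y, (y ^ (m + 2) / (1 + y) - (m + 1) * t * (t + y) ^ m) ∂ν ≤
      ∫ y, (y ^ (m + 1) - hat t y ^ (m + 1)) ∂ν := by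
    apply integral_mono_ae (h1.sub h2) (hi.sub hih)
    filter_upwards [h.nonneg] with y hy using base_ineq ht hy m
  rw [integral_sub h1 h2, integral_sub hi hih, he, sub_self] at h4
  have h5 := (abs_le.1 h3).2
  linarith

lemma hat_pow_integrable (h : IsInv ζ t ν) (ht : 0 < t) (ht1 : t ≤ 1) (k : ℕ) :
    Integrable (fun y => hat t y ^ k) ν := by
  refine hat_bdd_integrable h ht ht1 (φ := fun w => w ^ k) (by fun_prop) (C := 1) ?_
  intro w hw hw1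
  have hw0 : 0 ≤ w := ht.le.trans hw
  rw [abs_of_nonneg (pow_nonneg hw0 _)]
  exact pow_le_one₀ hw0 hw1

lemma hat_bound (H : Hyp ζ m) :
    ∃ C : ℝ, 0 ≤ C ∧ ∀ (t : ℝ) (ν : Measure ℝ), 0 < t → t ≤ 1 → IsInv ζ t ν →
      ∫ y, hat t y ^ (m + 2) ∂ν ≤ C * t ^ (m + 1) := by
  obtain ⟨C, hC0, hC⟩ := basic_bound H
  refine ⟨2 ^ (m + 1) * (1 + C), by positivity, fun t ν ht ht1 h => ?_⟩
  have := h.prob
  obtain ⟨h1, h2⟩ := hC t ν ht ht1 h
  have hp : ∀ y, 0 ≤ y → hat t y ^ (m + 2) ≤ 2 ^ (m + 1) * (t ^ (m + 1) + y ^ (m + 2) / (1 + y)) := by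
    intro y hy
    have e1 : hat t y ≤ t + y / (1 + y) := by
      unfold hat
      rw [add_div]
      have := div_le_self ht.le (show 1 ≤ 1 + y by linarith)
      linarith
    have e2 : hat t y ^ (m + 2) ≤ (t + y / (1 + y)) ^ (m + 2) :=
      pow_le_pow_left₀ (hat_pos ht hy).le e1 _
    have e3 := add_pow_le ht.le (show 0 ≤ y / (1 + y) by positivity) (m + 2)
    have e4 : (y / (1 + y)) ^ (m + 2) ≤ y ^ (m + 2) / (1 + y) := by
      rw [div_pow]
      apply div_le_div_of_nonneg_left (by positivity) (by linarith)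
      calc (1 + y) = (1 + y) ^ 1 := (pow_one _).symm
        _ ≤ (1 + y) ^ (m + 2) := pow_le_pow_right₀ (by linarith) (by omega)
    have e5 : t ^ (m + 2) ≤ t ^ (m + 1) := pow_le_pow_of_le_one ht.le ht1 (by omega)
    have e6 : (m + 2 - 1) = m + 1 := by omega
    rw [e6] at e3
    calc _ ≤ _ := e2
      _ ≤ _ := e3
      _ ≤ _ := by gcongr
  calc ∫ y, hat t y ^ (m + 2) ∂ν ≤ ∫ y, 2 ^ (m + 1) * (t ^ (m + 1) + y ^ (m + 2) / (1 + y)) ∂ν := by
        apply integral_mono_ae (hat_pow_integrable h ht ht1 _)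
          (((integrable_const _).add h1).const_mul _)
        filter_upwards [h.nonneg] with y hy using hp y hy
    _ = 2 ^ (m + 1) * (t ^ (m + 1) + ∫ y, y ^ (m + 2) / (1 + y) ∂ν) := by
        rw [integral_const_mul, integral_add (integrable_const _) h1]
        simp
    _ ≤ 2 ^ (m + 1) * (t ^ (m + 1) + C * t ^ (m + 1)) := by gcongr
    _ = _ := by ring

/-! ### product identities -/

lemma prodfac (H : Hyp ζ m) (h : IsInv ζ t ν) (ht : 0 < t) (ht1 : t ≤ 1) {φ ψ : ℝ → ℝ}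
    (hφ : Integrable φ ζ) (hψ : Measurable ψ) {C : ℝ} (hb : ∀ w, t ≤ w → w ≤ 1 → |ψ w| ≤ C) :
    Integrable (fun p : ℝ × ℝ => φ p.1 * ψ (hat t p.2)) (ζ.prod ν) ∧
    ∫ p, φ p.1 * ψ (hat t p.2) ∂(ζ.prod ν) = (∫ z, φ z ∂ζ) * ∫ y, ψ (hat t y) ∂ν := by
  have := H.prob
  have := h.prob
  have h1 := hat_bdd_integrable h ht ht1 hψ hb
  exact ⟨hφ.mul_prod h1, integral_prod_mul φ (fun y => ψ (hat t y))⟩

/-- `E[Z^n Ŷ^n k(Z Ŷ)] = E[Y^n k(Y)]` -/
lemma shift_identity (h : IsInv ζ t ν) {k : ℝ → ℝ} (hk : Measurable k)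
    (hi : Integrable (fun y => y ^ (m + 1) * k y) ν) :
    Integrable (fun p : ℝ × ℝ => p.1 ^ (m + 1) * hat t p.2 ^ (m + 1) * k (p.1 * hat t p.2))
      (ζ.prod ν) ∧
    ∫ p, p.1 ^ (m + 1) * hat t p.2 ^ (m + 1) * k (p.1 * hat t p.2) ∂(ζ.prod ν) =
      ∫ y, y ^ (m + 1) * k y ∂ν := by
  have hf : Measurable (fun y : ℝ => y ^ (m + 1) * k y) := by fun_prop
  have e : (fun p : ℝ × ℝ => p.1 ^ (m + 1) * hat t p.2 ^ (m + 1) * k (p.1 * hat t p.2)) =
      fun p : ℝ × ℝ => (fun y : ℝ => y ^ (m + 1) * k y) (p.1 * hat t p.2) := by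
    funext p
    simp only [mul_pow]
  rw [e, ← h.integrable_iff hf, h.integral_eq hf]
  exact ⟨hi, rfl⟩

/-- Comparison of `E[Ŷ^n k(Ŷ)] - E[Y^n k(Y)]` with a lower bound `φ(z) ψ(w) - z^n w^(n+1) c`. -/
lemma lower_identity (H : Hyp ζ m) (h : IsInv ζ t ν) (ht : 0 < t) (ht1 : t ≤ 1) {k : ℝ → ℝ}
    (hk : Measurable k) {C0 : ℝ} (hkb : ∀ w, t ≤ w → w ≤ 1 → |w ^ (m + 1) * k w| ≤ C0)
    (hi : Integrable (fun y => y ^ (m + 1) * k y) ν)
    {φ ψ : ℝ → ℝ} (hφ : Integrable φ ζ) (hψ : Measurable ψ) {C : ℝ}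
    (hb : ∀ w, t ≤ w → w ≤ 1 → |ψ w| ≤ C) {c : ℝ}
    (hlow : ∀ z w, 0 < z → 0 < w → w ≤ 1 →
      φ z * ψ w - c * (z ^ (m + 1) * w ^ (m + 2)) ≤ z ^ (m + 1) * w ^ (m + 1) * (k w - k (z * w))) :
    (∫ z, φ z ∂ζ) * (∫ y, ψ (hat t y) ∂ν) - c * ∫ y, hat t y ^ (m + 2) ∂ν ≤
      ∫ y, hat t y ^ (m + 1) * k (hat t y) ∂ν - ∫ y, y ^ (m + 1) * k y ∂ν := by
  have := H.prob
  have := h.prob
  obtain ⟨a1, a2⟩ := prodfac H h ht ht1 hφ hψ hb
  obtain ⟨b1, b2⟩ := prodfac H h ht ht1 (φ := fun z => z ^ (m + 1)) (ψ := fun w => w ^ (m + 2))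
    H.integrable (by fun_prop) (C := 1) (by
      intro w hw hw1
      have hw0 : 0 ≤ w := ht.le.trans hw
      rw [abs_of_nonneg (pow_nonneg hw0 _)]
      exact pow_le_one₀ hw0 hw1)
  obtain ⟨c1, c2⟩ := prodfac H h ht ht1 (φ := fun z => z ^ (m + 1))
    (ψ := fun w => w ^ (m + 1) * k w) H.integrable (by fun_prop) hkb
  obtain ⟨d1, d2⟩ := shift_identity (m := m) h hk hi
  rw [H.mom, one_mul] at b2 c2
  have h1 : ∫ p, (φ p.1 * ψ (hat t p.2) - c * (p.1 ^ (m + 1) * hat t p.2 ^ (m + 2))) ∂(ζ.prod ν) ≤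
      ∫ p, (p.1 ^ (m + 1) * (hat t p.2 ^ (m + 1) * k (hat t p.2)) -
        p.1 ^ (m + 1) * hat t p.2 ^ (m + 1) * k (p.1 * hat t p.2)) ∂(ζ.prod ν) := by
    apply integral_mono_ae (a1.sub (b1.const_mul c)) (c1.sub d1)
    filter_upwards [ae_prod H h] with p hp
    have := hlow p.1 (hat t p.2) hp.1 (hat_pos ht hp.2) (hat_le_one ht1 hp.2)
    refine le_trans this (le_of_eq ?_)
    simp only [Pi.sub_apply]
    ring
  rw [integral_sub a1 (b1.const_mul c), integral_const_mul, a2, b2, integral_sub c1 d1, c2, d2] at h1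
  exact h1

end

end Pool.Agent.H646R3.DH
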