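import Pool.Agent.H646R3.DH.Bounds

set_option autoImplicit false
open MeasureTheory Filter Topology Set

namespace Pool.Agent.H646R3.DH

noncomputable section

variable {ζ : Measure ℝ} {m : ℕ} {t : ℝ} {ν : Measure ℝ}

lemma sqrt_min (z : ℝ) : √(min z 4) = min (√z) 2 := by
  rcases le_total z 4 with h | h
  · rw [min_eq_left h, min_eq_left]
    rw [show (2 : ℝ) = √4 by rw [show (4 : ℝ) = 2 ^ 2 by norm_num]; simp]
    exact Real.sqrt_le_sqrt h
  · have : (2 : ℝ) = √4 := by rw [show (4 : ℝ) = 2 ^ 2 by norm_num]; simp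
    rw [min_eq_right h, min_eq_right, ← this]
    rw [this]
    exact Real.sqrt_le_sqrt h

lemma key_half {a b : ℝ} (ha : 0 < a) (hb : 0 < b) :
    a * (min b 2 - 1) - 3 * a ^ 2 ≤ 1 / (1 + a) - 1 / (1 + a * b) := by
  have e : 1 / (1 + a) - 1 / (1 + a * b) = a * (b - 1) / ((1 + a) * (1 + a * b)) := by
    field_simp
    ring
  rw [e, le_div_iff₀ (by positivity)]
  rcases le_total b 1 with h | h
  · rw [min_eq_left (by linarith)]
    have h1 : 1 ≤ (1 + a) * (1 + a * b) := by nlinarith [mul_pos ha hb, mul_pos ha (mul_pos ha hb)]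
    have h2 : a * (b - 1) - 3 * a ^ 2 ≤ a * (b - 1) := by nlinarith
    have h3 : a * (b - 1) ≤ 0 := by nlinarith
    calc (a * (b - 1) - 3 * a ^ 2) * ((1 + a) * (1 + a * b))
        ≤ (a * (b - 1)) * ((1 + a) * (1 + a * b)) := mul_le_mul_of_nonneg_right h2 (by positivity)
      _ ≤ (a * (b - 1)) * 1 := mul_le_mul_of_nonpos_left h1 h3
      _ = _ := by ring
  · set g := min b 2 with hg
    have hgb : g ≤ b := min_le_left _ _
    have hg2 : g ≤ 2 := min_le_right _ _
    have hg1 : 1 ≤ g := le_min h (by norm_num)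
    have h1 : (g - 1) * (1 + a * b) ≤ (b - 1) * (1 + a * g) := by
      have : (b - 1) * (1 + a * g) - (g - 1) * (1 + a * b) = (1 + a) * (b - g) := by ring
      have h2 : 0 ≤ (1 + a) * (b - g) := mul_nonneg (by linarith) (by linarith)
      linarith
    have h3 : (g - 1 - 3 * a) * (1 + a) * (1 + 2 * a) ≤ g - 1 := by
      have : g - 1 - (g - 1 - 3 * a) * (1 + a) * (1 + 2 * a) =
        3 * a * (2 - g) + 9 * a ^ 2 + 6 * a ^ 3 - 2 * (g - 1) * a ^ 2 := by ring
      have h4 : 0 ≤ 3 * a * (2 - g) := mul_nonneg (by linarith) (by linarith)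
      have h5 : 2 * (g - 1) * a ^ 2 ≤ 2 * a ^ 2 := by nlinarith [sq_nonneg a]
      have h6 : 0 ≤ a ^ 3 := by positivity
      have h7 : 0 ≤ a ^ 2 := by positivity
      linarith
    -- want (a(g-1) - 3a²)(1+a)(1+ab) ≤ a(b-1)
    rcases le_total (g - 1 - 3 * a) 0 with h4 | h4
    · have h5 : (a * (g - 1) - 3 * a ^ 2) * ((1 + a) * (1 + a * b)) ≤ 0 := by
        have : (a * (g - 1) - 3 * a ^ 2) = a * (g - 1 - 3 * a) := by ring
        rw [this]
        exact mul_nonpos_of_nonpos_of_nonneg (mul_nonpos_of_nonneg_of_nonpos ha.le h4)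
          (by positivity)
      have h6 : 0 ≤ a * (b - 1) := mul_nonneg ha.le (by linarith)
      linarith
    · have hag : 1 + a * g ≤ 1 + 2 * a := by nlinarith
      -- multiply by (1+ag)>0
      have h5 : (g - 1 - 3 * a) * (1 + a) * (1 + a * g) ≤ g - 1 := by
        calc (g - 1 - 3 * a) * (1 + a) * (1 + a * g) ≤ (g - 1 - 3 * a) * (1 + a) * (1 + 2 * a) :=
              mul_le_mul_of_nonneg_left hag (mul_nonneg h4 (by linarith))
          _ ≤ _ := h3
      have h6 : (g - 1 - 3 * a) * (1 + a) * (1 + a * b) * (1 + a * g) ≤ (b - 1) * (1 + a * g) := by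
        calc (g - 1 - 3 * a) * (1 + a) * (1 + a * b) * (1 + a * g)
            = ((g - 1 - 3 * a) * (1 + a) * (1 + a * g)) * (1 + a * b) := by ring
          _ ≤ (g - 1) * (1 + a * b) := mul_le_mul_of_nonneg_right h5 (by positivity)
          _ ≤ _ := h1
      have h7 : (g - 1 - 3 * a) * (1 + a) * (1 + a * b) ≤ b - 1 :=
        le_of_mul_le_mul_right h6 (by positivity)
      calc (a * (g - 1) - 3 * a ^ 2) * ((1 + a) * (1 + a * b))
          = a * ((g - 1 - 3 * a) * (1 + a) * (1 + a * b)) := by ring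
        _ ≤ a * (b - 1) := mul_le_mul_of_nonneg_left h7 ha.le

/-- the function `z^n (√(min z 4) - 1)` -/
def phi (m : ℕ) (z : ℝ) : ℝ := z ^ (m + 1) * (√(min z 4) - 1)

lemma sqrt_min_bd (z : ℝ) : |√(min z 4) - 1| ≤ 1 := by
  have h1 : √(min z 4) ≤ 2 := by
    rw [show (2 : ℝ) = √4 by rw [show (4 : ℝ) = 2 ^ 2 by norm_num]; simp]
    exact Real.sqrt_le_sqrt (min_le_right _ _)
  have h0 := Real.sqrt_nonneg (min z 4)
  rw [abs_le]; constructor <;> linarith

lemma phi_integrable (H : Hyp ζ m) : Integrable (phi m) ζ := by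
  refine Integrable.mono' H.integrable.abs (Measurable.aestronglyMeasurable (by
    unfold phi; fun_prop)) (Eventually.of_forall fun z => ?_)
  unfold phi
  rw [Real.norm_eq_abs, abs_mul]
  have := sqrt_min_bd z
  nlinarith [abs_nonneg (z ^ (m + 1)), abs_nonneg (√(min z 4) - 1)]

lemma phi_pos (H : Hyp ζ m) : 0 < ∫ z, phi m z ∂ζ := by
  have := H.prob
  set l : ℝ := 1 / (2 * (m + 1)) with hl
  have hl0 : 0 < l := by positivity
  have hl1 : l ≤ 1 / 2 := by
    rw [hl]
    apply one_div_le_one_div_of_le (by norm_num)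
    have : (0:ℝ) ≤ m := Nat.cast_nonneg m
    linarith
  have key : ∀ z : ℝ, 0 < z → z ≠ 1 → 0 < phi m z - l * (z ^ (m + 1) - 1) := by
    intro z hz hz1
    unfold phi
    rcases le_total z 4 with h | h
    · rw [min_eq_left h]
      have hw : 0 < z ^ (m + 1) := by positivity
      have hne : z ^ (m + 1) - 1 ≠ 0 := by
        intro h0
        have h3 : z ^ (m + 1) = 1 := by linarith
        exact hz1 ((pow_eq_one_iff_of_nonneg hz.le (Nat.succ_ne_zero m)).1 h3)
      have hb := one_add_mul_self_lt_rpow_one_add (s := z ^ (m + 1) - 1) (by linarith) hne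
        (p := 1 + l) (by linarith)
      have e : (1 + (z ^ (m + 1) - 1)) ^ (1 + l) = z ^ (m + 1) * √z := by
        rw [add_sub_cancel, Real.rpow_add hw, Real.rpow_one, Real.sqrt_eq_rpow]
        congr 1
        rw [← Real.rpow_natCast, ← Real.rpow_mul hz.le]
        congr 1
        rw [hl]
        push_cast
        field_simp
      rw [e] at hb
      nlinarith
    · rw [min_eq_right h, show √4 = (2:ℝ) by rw [show (4 : ℝ) = 2 ^ 2 by norm_num]; simp]
      have hw : 0 < z ^ (m + 1) := by positivity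
      nlinarith
  have hi3 : Integrable (fun z => l * (z ^ (m + 1) - 1)) ζ :=
    (H.integrable.sub (integrable_const _)).const_mul _
  have h1 := integral_strict H (f := fun z => phi m z - l * (z ^ (m + 1) - 1))
    ((phi_integrable H).sub hi3) (fun z hz => by
      by_cases hz1 : z = 1
      · subst hz1
        simp [phi]
      · exact (key z hz hz1).le) key
  rw [integral_sub (phi_integrable H) hi3,
    integral_const_mul, integral_sub H.integrable (integrable_const _), H.mom] at h1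
  simp at h1
  exact h1

lemma f_mono {w w' : ℝ} (hw : 0 ≤ w) (h : w ≤ w') :
    w ^ (m + 1) * (1 / (1 + √w)) ≤ w' ^ (m + 1) * (1 / (1 + √w')) := by
  have hw' : 0 ≤ w' := hw.trans h
  set a := √w with ha
  set b := √w' with hb
  have ha0 : 0 ≤ a := Real.sqrt_nonneg _
  have hab : a ≤ b := Real.sqrt_le_sqrt h
  have hb0 : 0 ≤ b := ha0.trans hab
  have ew : w = a ^ 2 := (Real.sq_sqrt hw).symm
  have ew' : w' = b ^ 2 := (Real.sq_sqrt hw').symm
  rw [ew, ew', mul_one_div, mul_one_div, div_le_div_iff₀ (by positivity) (by positivity)]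
  have h1 : (a ^ 2) ^ (m + 1) ≤ (b ^ 2) ^ (m + 1) := by gcongr
  have h2 : (a ^ 2) ^ (m + 1) * b ≤ (b ^ 2) ^ (m + 1) * a := by
    have e1 : (a ^ 2) ^ (m + 1) * b = a * b * a ^ (2 * m + 1) := by ring
    have e2 : (b ^ 2) ^ (m + 1) * a = a * b * b ^ (2 * m + 1) := by ring
    rw [e1, e2]
    have : a ^ (2 * m + 1) ≤ b ^ (2 * m + 1) := by gcongr
    exact mul_le_mul_of_nonneg_left this (by positivity)
  nlinarith

lemma half_bound (H : Hyp ζ m) :
    ∃ C : ℝ, 0 ≤ C ∧ ∀ (t : ℝ) (ν : Measure ℝ), 0 < t → t ≤ 1 → IsInv ζ t ν →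
      Integrable (fun y => hat t y ^ (m + 1) * √(hat t y)) ν ∧
      ∫ y, hat t y ^ (m + 1) * √(hat t y) ∂ν ≤ C * t ^ (m + 1) := by
  obtain ⟨C1, hC10, hC1⟩ := hat_bound H
  obtain ⟨C2, hC20, hC2⟩ := half_moment H
  have hA := phi_pos H
  set A := ∫ z, phi m z ∂ζ with hAdef
  refine ⟨(3 * C1 + (m + 1) * C2) / A, by positivity, fun t ν ht ht1 h => ?_⟩
  have := H.prob
  have := h.prob
  have hb1 : ∀ w : ℝ, t ≤ w → w ≤ 1 → |w ^ (m + 1) * √w| ≤ 1 := by
    intro w hw hw1
    have hw0 : 0 ≤ w := ht.le.trans hw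
    rw [abs_of_nonneg (by positivity)]
    have h1 : w ^ (m + 1) ≤ 1 := pow_le_one₀ hw0 hw1
    have h2 : √w ≤ 1 := Real.sqrt_le_one.2 hw1
    exact mul_le_one₀ h1 (Real.sqrt_nonneg _) h2
  have hi0 : Integrable (fun y => hat t y ^ (m + 1) * √(hat t y)) ν :=
    hat_bdd_integrable h ht ht1 (φ := fun w => w ^ (m + 1) * √w) (by fun_prop) hb1
  refine ⟨hi0, ?_⟩
  have hk1 : ∀ w : ℝ, 0 ≤ w → |w ^ (m + 1) * (1 / (1 + √w))| ≤ w ^ (m + 1) := by
    intro w hw
    rw [abs_of_nonneg (by positivity)]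
    have h1 : 1 / (1 + √w) ≤ 1 := by
      rw [div_le_one (by positivity)]
      have := Real.sqrt_nonneg w
      linarith
    have h2 : 0 ≤ w ^ (m + 1) := by positivity
    nlinarith
  have hi : Integrable (fun y : ℝ => y ^ (m + 1) * (1 / (1 + √y))) ν := by
    refine Integrable.mono' (pow_moment H h ht ht1 le_rfl).1
      (Measurable.aestronglyMeasurable (by fun_prop)) ?_
    filter_upwards [h.nonneg] with y hy using hk1 y hy
  have hkb : ∀ w : ℝ, t ≤ w → w ≤ 1 → |w ^ (m + 1) * (1 / (1 + √w))| ≤ 1 := by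
    intro w hw hw1
    have hw0 : 0 ≤ w := ht.le.trans hw
    exact (hk1 w hw0).trans (pow_le_one₀ hw0 hw1)
  have hmain := lower_identity H h ht ht1 (k := fun w => 1 / (1 + √w)) (by fun_prop) hkb hi
    (φ := phi m) (ψ := fun w => w ^ (m + 1) * √w) (phi_integrable H) (by fun_prop) hb1 (c := 3)
    (by
      intro z w hz hw hw1
      have h1 := key_half (a := √w) (b := √z) (Real.sqrt_pos.2 hw)
        (Real.sqrt_pos.2 hz)
      rw [← sqrt_min z, Real.sq_sqrt hw.le] at h1
      have h2 : √w * √z = √(z * w) := by rw [mul_comm, Real.sqrt_mul hz.le]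
      rw [h2] at h1
      have h3 : 0 < z ^ (m + 1) * w ^ (m + 1) := by positivity
      unfold phi
      calc z ^ (m + 1) * (√(min z 4) - 1) * (w ^ (m + 1) * √w) - 3 * (z ^ (m + 1) * w ^ (m + 2))
          = z ^ (m + 1) * w ^ (m + 1) * (√w * (√(min z 4) - 1) - 3 * w) := by ring
        _ ≤ _ := mul_le_mul_of_nonneg_left h1 h3.le)
  have hup : ∫ y, hat t y ^ (m + 1) * (1 / (1 + √(hat t y))) ∂ν - ∫ y, y ^ (m + 1) * (1 / (1 + √y)) ∂ν
      ≤ (m + 1) * C2 * t ^ (m + 1) := by
    have hi1 : Integrable (fun y => hat t y ^ (m + 1) * (1 / (1 + √(hat t y)))) ν :=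
      hat_bdd_integrable h ht ht1 (φ := fun w => w ^ (m + 1) * (1 / (1 + √w))) (by fun_prop) hkb
    rw [← integral_sub hi1 hi]
    obtain ⟨g1, g2⟩ := int_le_of_half h (hC2 t ν ht ht1 h)
      (f := fun y => (m + 1) * t * (t + y) ^ m)
      (by fun_prop) (c := (m + 1) * t ^ (m + 1)) (by positivity) (by
        intro y hy
        rw [abs_of_nonneg (by positivity), add_pow_eq ht y m]
        have := W_pow_le (m := m) ht hy le_rfl
        calc (m + 1) * t * (t ^ m * ((t + y) / t) ^ m) = (m + 1) * t ^ (m + 1) * ((t + y) / t) ^ m := by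
              ring
          _ ≤ _ := mul_le_mul_of_nonneg_left this (by positivity))
    calc _ ≤ ∫ y, (m + 1) * t * (t + y) ^ m ∂ν := by
          apply integral_mono_ae (hi1.sub hi) g1
          filter_upwards [h.nonneg] with y hy
          simp only [Pi.sub_apply]
          refine le_trans ?_ (pow_diff ht.le hy m)
          rcases le_total (hat t y) y with hc | hc
          · have := f_mono (m := m) (hat_pos ht hy).le hc
            have h2 := pow_diff_nonneg ht.le hy (m + 1)
            linarith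
          · have h3 : 1 / (1 + √(hat t y)) ≤ 1 / (1 + √y) := by
              apply one_div_le_one_div_of_le (by positivity)
              have := Real.sqrt_le_sqrt hc
              linarith
            have h4 : y ^ (m + 1) ≤ hat t y ^ (m + 1) := pow_le_pow_left₀ hy hc _
            have h5 : hat t y ^ (m + 1) ≤ (t + y) ^ (m + 1) :=
              pow_le_pow_left₀ (hat_pos ht hy).le (hat_le ht hy) _
            have h6 : 1 / (1 + √y) ≤ 1 := by
              rw [div_le_one (by positivity)]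
              have := Real.sqrt_nonneg y
              linarith
            have h7 : 0 ≤ hat t y ^ (m + 1) := pow_nonneg (hat_pos ht hy).le _
            calc hat t y ^ (m + 1) * (1 / (1 + √(hat t y))) - y ^ (m + 1) * (1 / (1 + √y))
                ≤ hat t y ^ (m + 1) * (1 / (1 + √y)) - y ^ (m + 1) * (1 / (1 + √y)) := by
                  have := mul_le_mul_of_nonneg_left h3 h7
                  linarith
              _ = (hat t y ^ (m + 1) - y ^ (m + 1)) * (1 / (1 + √y)) := by ring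
              _ ≤ (hat t y ^ (m + 1) - y ^ (m + 1)) * 1 :=
                  mul_le_mul_of_nonneg_left h6 (by linarith)
              _ ≤ _ := by linarith
      _ ≤ |∫ y, (m + 1) * t * (t + y) ^ m ∂ν| := le_abs_self _
      _ ≤ _ := by
          refine g2.trans (le_of_eq ?_)
          ring
  have h9 := hC1 t ν ht ht1 h
  rw [div_mul_eq_mul_div, le_div_iff₀ hA]
  have h10 : (∫ y, hat t y ^ (m + 1) * √(hat t y) ∂ν) * A ≤
      3 * ∫ y, hat t y ^ (m + 2) ∂ν + (m + 1) * C2 * t ^ (m + 1) := by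
    have := hmain.trans hup
    rw [← hAdef] at this
    linarith
  nlinarith

/-- `E[Y^n √Ŷ] = O(t^n)` -/
lemma half_bound' (H : Hyp ζ m) :
    ∃ C : ℝ, 0 ≤ C ∧ ∀ (t : ℝ) (ν : Measure ℝ), 0 < t → t ≤ 1 → IsInv ζ t ν →
      Integrable (fun y => y ^ (m + 1) * √(hat t y)) ν ∧
      ∫ y, y ^ (m + 1) * √(hat t y) ∂ν ≤ C * t ^ (m + 1) := by
  obtain ⟨C1, hC10, hC1⟩ := half_bound H
  obtain ⟨C2, hC20, hC2⟩ := basic_bound H
  refine ⟨2 ^ (m + 1) * C1 + 2 * C2, by positivity, fun t ν ht ht1 h => ?_⟩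
  obtain ⟨a1, a2⟩ := hC1 t ν ht ht1 h
  obtain ⟨b1, b2⟩ := hC2 t ν ht ht1 h
  have hp : ∀ y : ℝ, 0 ≤ y → y ^ (m + 1) * √(hat t y) ≤
      2 ^ (m + 1) * (hat t y ^ (m + 1) * √(hat t y)) + 2 * (y ^ (m + 2) / (1 + y)) := by
    intro y hy
    have hs0 := Real.sqrt_nonneg (hat t y)
    have hh := hat_pos ht hy
    rcases le_total y 1 with h1 | h1
    · have h2 : y ≤ 2 * hat t y := by
        have h3 := div_le_hat ht hy
        have h4 : y / 2 ≤ y / (1 + y) := div_le_div_of_nonneg_left hy (by linarith) (by linarith)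
        linarith
      have h5 : y ^ (m + 1) ≤ 2 ^ (m + 1) * hat t y ^ (m + 1) := by
        rw [← mul_pow]
        exact pow_le_pow_left₀ hy h2 _
      have h6 : 0 ≤ 2 * (y ^ (m + 2) / (1 + y)) := by positivity
      have h7 := mul_le_mul_of_nonneg_right h5 hs0
      linarith
    · have h2 : √(hat t y) ≤ 1 := Real.sqrt_le_one.2 (hat_le_one ht1 hy)
      have h3 : y ^ (m + 1) ≤ 2 * (y ^ (m + 2) / (1 + y)) := by
        rw [mul_div_assoc', le_div_iff₀ (by linarith)]
        have : 0 ≤ y ^ (m + 1) := by positivity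
        calc y ^ (m + 1) * (1 + y) ≤ y ^ (m + 1) * (2 * y) := by nlinarith
          _ = _ := by ring
      have h4 : 0 ≤ y ^ (m + 1) := by positivity
      have h5 : 0 ≤ 2 ^ (m + 1) * (hat t y ^ (m + 1) * √(hat t y)) := by positivity
      nlinarith
  have hi : Integrable (fun y => y ^ (m + 1) * √(hat t y)) ν := by
    refine Integrable.mono' ((a1.const_mul (2 ^ (m + 1))).add (b1.const_mul 2)) ?_ ?_
    · have := hat_measurable t
      exact Measurable.aestronglyMeasurable (by fun_prop)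
    · filter_upwards [h.nonneg] with y hy
      rw [Real.norm_of_nonneg (by positivity)]
      exact hp y hy
  refine ⟨hi, ?_⟩
  calc _ ≤ ∫ y, (2 ^ (m + 1) * (hat t y ^ (m + 1) * √(hat t y)) + 2 * (y ^ (m + 2) / (1 + y))) ∂ν := by
        apply integral_mono_ae hi ((a1.const_mul (2 ^ (m + 1))).add (b1.const_mul 2))
        filter_upwards [h.nonneg] with y hy using hp y hy
    _ = 2 ^ (m + 1) * ∫ y, hat t y ^ (m + 1) * √(hat t y) ∂ν + 2 * ∫ y, y ^ (m + 2) / (1 + y) ∂ν := by
        rw [integral_add (a1.const_mul _) (b1.const_mul _), integral_const_mul, integral_const_mul]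
    _ ≤ _ := by nlinarith [pow_pos (show (0:ℝ) < 2 by norm_num) (m + 1)]

end

end Pool.Agent.H646R3.DH
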