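import Pool.Agent.H646R3.DH.Main

/-!
# MP_132c94_pr, Q2: the Derrida-Hilhorst logarithmic singularity for integer `α`

Let `α ≥ 1` be an integer and `Z > 0` a non-constant random variable (of law `ζ`) with
`E[Z^α] = 1`. With `L(ε) = E[log (1 + ε² X_ε)]`, where `X_ε ≥ 0` and
`X_ε = Z (1 + X_ε) / (1 + ε² X_ε)` in law, one has, as `ε ↓ 0`,

`L(ε) = ∑_{k=1}^{α-1} (-1)^(k+1) ℓ_k ε^(2k) + (-1)^(α-1) C ε^(2α) log(1/ε) + o(ε^(2α) log(1/ε))`

for some `C ≥ 0`, and `C > 0` exactly when `Z^α log Z` is integrable.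

Idea of the proof. Put `t = ε²`, `Y = t X`, `Ŷ = (t + Y) / (1 + Y)`, so that `Y = Z Ŷ` in law.
Testing the stationarity with `y^α` gives `E[Y^(α+1)/(1+Y)] = O(t^α)`; testing it with
`y^α/(1+√y)` gives `E[Ŷ^α √Ŷ] = O(t^α)`; testing it with `y^α log(1+1/y)` then gives
`E[X^α] ~ (κ / E[Z^α log Z]) log(1/t)`. The functions `E[Y^k (1+Y)^(-l)]` satisfy a triangular
system, which transports the logarithm to `L` with a coefficient of the announced sign.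
-/

set_option autoImplicit false

open MeasureTheory Filter Topology Asymptotics

namespace Pool.Agent.H646R3.DH.IntegerAlpha

open Pool.Agent.H646R3.DH

/-- **Answer to Q2.** Let `ζ` be the law of `Z > 0`, not constant, with `E[Z^α] = 1` for an integer
`α ≥ 1`, and for `ε > 0` let `μ ε` be a law of `X_ε ≥ 0` with `X_ε = Z(1+X_ε)/(1+ε²X_ε)` in law.
Then `L(ε) = E[log (1 + ε² X_ε)]` has the expansion of Derrida and Hilhorst with a constant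
`C ≥ 0` in front of `(-1)^(α-1) ε^(2α) log(1/ε)`, and `C > 0` if and only if `Z^α log Z` is
integrable. -/
theorem result (ζ : Measure ℝ) [IsProbabilityMeasure ζ] (hpos : ∀ᵐ z ∂ζ, 0 < z)
    (hnc : ¬ ∃ c : ℝ, ∀ᵐ z ∂ζ, z = c) (α : ℕ) (hα : 1 ≤ α) (hmom : ∫ z, z ^ α ∂ζ = 1)
    (μ : ℝ → Measure ℝ) (hμ : ∀ ε, 0 < ε → IsStationary ζ ε (μ ε)) :
    ∃ (ℓ : ℕ → ℝ) (C : ℝ), 0 ≤ C ∧
      (0 < C ↔ Integrable (fun z => z ^ α * Real.log z) ζ) ∧
      (fun ε : ℝ => ∫ x, Real.log (1 + ε ^ 2 * x) ∂(μ ε) -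
        ∑ k ∈ Finset.Icc 1 (α - 1), (-1) ^ (k + 1) * ℓ k * ε ^ (2 * k) -
        (-1) ^ (α - 1) * C * (ε ^ (2 * α) * Real.log (1 / ε))) =o[𝓝[>] 0]
      (fun ε : ℝ => ε ^ (2 * α) * Real.log (1 / ε)) :=
  main ζ hpos hnc α hα hmom μ hμ

end Pool.Agent.H646R3.DH.IntegerAlpha
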