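import Pool.Agent.H646R3.DH.LogId

set_option autoImplicit false
open MeasureTheory Filter Topology Set

namespace Pool.Agent.H646R3.DH

noncomputable section

variable {ζ : Measure ℝ} {m : ℕ} {t : ℝ} {ν : Measure ℝ}

/-! ### bounds on `z^n log (min z K)` -/

lemma pow_log_ge {z : ℝ} (hz : 0 < z) (m : ℕ) {K : ℝ} (hK : 1 ≤ K) :
    -1 ≤ z ^ (m + 1) * Real.log (min z K) := by
  rcases le_total 1 z with h | h
  · have : 0 ≤ Real.log (min z K) := Real.log_nonneg (le_min h hK)
    have : 0 ≤ z ^ (m + 1) * Real.log (min z K) := by positivity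
    linarith
  · rw [min_eq_left (h.trans hK)]
    have h1 := Real.log_le_sub_one_of_pos (inv_pos.2 hz)
    rw [Real.log_inv] at h1
    have h2 : z * (-Real.log z) ≤ z * (z⁻¹ - 1) := mul_le_mul_of_nonneg_left h1 hz.le
    have h3 : z * (z⁻¹ - 1) = 1 - z := by field_simp
    have h4 : 0 ≤ -Real.log z := by
      have := Real.log_nonpos hz.le h
      linarith
    have h5 : z ^ (m + 1) * (-Real.log z) ≤ z * (-Real.log z) := by
      apply mul_le_mul_of_nonneg_right _ h4
      calc z ^ (m + 1) ≤ z ^ 1 := pow_le_pow_of_le_one hz.le h (by omega)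
        _ = z := pow_one z
    nlinarith

lemma pow_log_le {z : ℝ} (hz : 0 < z) (m : ℕ) {K : ℝ} (hK : 1 ≤ K) :
    |z ^ (m + 1) * Real.log (min z K)| ≤ z ^ (m + 1) * Real.log K + 1 := by
  have h1 := pow_log_ge hz m hK
  have h2 : Real.log (min z K) ≤ Real.log K :=
    Real.log_le_log (lt_min hz (by linarith)) (min_le_right _ _)
  have h3 : 0 ≤ Real.log K := Real.log_nonneg hK
  have h4 : 0 < z ^ (m + 1) := by positivity
  have h5 : z ^ (m + 1) * Real.log (min z K) ≤ z ^ (m + 1) * Real.log K :=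
    mul_le_mul_of_nonneg_left h2 h4.le
  have h6 : 0 ≤ z ^ (m + 1) * Real.log K := by positivity
  rw [abs_le]
  constructor <;> linarith

lemma trunc_integrable (H : Hyp ζ m) {K : ℝ} (hK : 1 ≤ K) :
    Integrable (fun z => z ^ (m + 1) * Real.log (min z K)) ζ := by
  have := H.prob
  refine Integrable.mono' ((H.integrable.mul_const (Real.log K)).add (integrable_const 1))
    (Measurable.aestronglyMeasurable (by fun_prop)) ?_
  filter_upwards [H.pos] with z hz using pow_log_le hz m hK

/-- the truncated drift -/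
def AK (ζ : Measure ℝ) (m : ℕ) (K : ℝ) : ℝ := ∫ z, z ^ (m + 1) * Real.log (min z K) ∂ζ

lemma drift_pos (H : Hyp ζ m) (hi : Integrable (fun z => z ^ (m + 1) * Real.log z) ζ) :
    0 < ∫ z, z ^ (m + 1) * Real.log z ∂ζ := by
  have := H.prob
  have hm : (0 : ℝ) < m + 1 := by positivity
  have hi3 : Integrable (fun z => (1 / (m + 1 : ℝ)) * (z ^ (m + 1) - 1)) ζ :=
    (H.integrable.sub (integrable_const _)).const_mul _
  have e : ∀ z : ℝ, 0 < z → z ^ (m + 1) * Real.log z - (1 / (m + 1 : ℝ)) * (z ^ (m + 1) - 1) =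
      (1 / (m + 1 : ℝ)) * z ^ (m + 1) * ((z ^ (m + 1))⁻¹ - 1 - Real.log ((z ^ (m + 1))⁻¹)) := by
    intro z hz
    rw [Real.log_inv, Real.log_pow]
    push_cast
    field_simp
    ring
  have key : ∀ z : ℝ, 0 < z → 0 ≤ z ^ (m + 1) * Real.log z - (1 / (m + 1 : ℝ)) * (z ^ (m + 1) - 1) := by
    intro z hz
    rw [e z hz]
    have hw : 0 < z ^ (m + 1) := by positivity
    have := Real.log_le_sub_one_of_pos (inv_pos.2 hw)
    have h2 : 0 ≤ (z ^ (m + 1))⁻¹ - 1 - Real.log ((z ^ (m + 1))⁻¹) := by linarith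
    positivity
  have key2 : ∀ z : ℝ, 0 < z → z ≠ 1 →
      0 < z ^ (m + 1) * Real.log z - (1 / (m + 1 : ℝ)) * (z ^ (m + 1) - 1) := by
    intro z hz hz1
    rw [e z hz]
    have hw : 0 < z ^ (m + 1) := by positivity
    have hne : (z ^ (m + 1))⁻¹ ≠ 1 := by
      intro h
      have h3 : z ^ (m + 1) = 1 := inv_eq_one.1 h
      exact hz1 ((pow_eq_one_iff_of_nonneg hz.le (Nat.succ_ne_zero m)).1 h3)
    have := Real.log_lt_sub_one_of_pos (inv_pos.2 hw) hne
    have h2 : 0 < (z ^ (m + 1))⁻¹ - 1 - Real.log ((z ^ (m + 1))⁻¹) := by linarith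
    positivity
  have h := integral_strict H (hi.sub hi3) key key2
  have h2 : ∫ z, (z ^ (m + 1) * Real.log z - (1 / (m + 1 : ℝ)) * (z ^ (m + 1) - 1)) ∂ζ =
      ∫ z, z ^ (m + 1) * Real.log z ∂ζ := by
    rw [integral_sub hi hi3, integral_const_mul, integral_sub H.integrable (integrable_const _),
      H.mom]
    simp
  have h3 : 0 < ∫ z, (z ^ (m + 1) * Real.log z - (1 / (m + 1 : ℝ)) * (z ^ (m + 1) - 1)) ∂ζ := h
  rwa [h2] at h3

lemma AK_tendsto (H : Hyp ζ m) (hi : Integrable (fun z => z ^ (m + 1) * Real.log z) ζ) :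
    Tendsto (fun j : ℕ => AK ζ m (j + 1)) atTop (𝓝 (∫ z, z ^ (m + 1) * Real.log z ∂ζ)) := by
  unfold AK
  refine tendsto_integral_of_dominated_convergence (fun z => |z ^ (m + 1) * Real.log z|)
    (fun j => Measurable.aestronglyMeasurable (by fun_prop)) hi.abs ?_ ?_
  · intro j
    filter_upwards [H.pos] with z hz
    have hK : (1 : ℝ) ≤ j + 1 := by
      have : (0 : ℝ) ≤ j := Nat.cast_nonneg j
      linarith
    rw [Real.norm_eq_abs, abs_mul, abs_mul]
    apply mul_le_mul_of_nonneg_left _ (abs_nonneg _)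
    rcases le_total z (j + 1) with h | h
    · rw [min_eq_left h]
    · rw [min_eq_right h, abs_of_nonneg (Real.log_nonneg hK),
        abs_of_nonneg (Real.log_nonneg (hK.trans h))]
      exact Real.log_le_log (by linarith) h
  · filter_upwards [H.pos] with z hz
    apply tendsto_const_nhds.congr'
    obtain ⟨N, hN⟩ := exists_nat_ge z
    filter_upwards [eventually_ge_atTop N] with j hj
    have : z ≤ (j : ℝ) + 1 := by
      have : (N : ℝ) ≤ j := by exact_mod_cast hj
      linarith
    rw [min_eq_left this]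

lemma AK_unbounded (H : Hyp ζ m) (hi : ¬ Integrable (fun z => z ^ (m + 1) * Real.log z) ζ)
    (M : ℝ) : ∃ j : ℕ, M < AK ζ m (j + 1) := by
  have := H.prob
  by_contra hcon
  push Not at hcon
  apply hi
  have hK : ∀ j : ℕ, (1 : ℝ) ≤ j + 1 := fun j => by
    have : (0 : ℝ) ≤ j := Nat.cast_nonneg j
    linarith
  have h1 : ∫⁻ z, ENNReal.ofReal (z ^ (m + 1) * Real.log z + 1) ∂ζ ≤ ENNReal.ofReal (M + 1) := by
    have hl : ∀ᵐ z ∂ζ, ENNReal.ofReal (z ^ (m + 1) * Real.log z + 1) ≤
        liminf (fun j : ℕ => ENNReal.ofReal (z ^ (m + 1) * Real.log (min z (j + 1)) + 1)) atTop := by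
      filter_upwards [H.pos] with z hz
      have ht : Tendsto (fun j : ℕ => ENNReal.ofReal (z ^ (m + 1) * Real.log (min z (j + 1)) + 1))
          atTop (𝓝 (ENNReal.ofReal (z ^ (m + 1) * Real.log z + 1))) := by
        apply tendsto_const_nhds.congr'
        obtain ⟨N, hN⟩ := exists_nat_ge z
        filter_upwards [eventually_ge_atTop N] with j hj
        have : z ≤ (j : ℝ) + 1 := by
          have : (N : ℝ) ≤ j := by exact_mod_cast hj
          linarith
        rw [min_eq_left this]
      exact ht.liminf_eq.ge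
    calc ∫⁻ z, ENNReal.ofReal (z ^ (m + 1) * Real.log z + 1) ∂ζ
        ≤ ∫⁻ z, liminf (fun j : ℕ =>
          ENNReal.ofReal (z ^ (m + 1) * Real.log (min z (j + 1)) + 1)) atTop ∂ζ :=
          lintegral_mono_ae hl
      _ ≤ liminf (fun j : ℕ => ∫⁻ z,
          ENNReal.ofReal (z ^ (m + 1) * Real.log (min z (j + 1)) + 1) ∂ζ) atTop := by
          apply lintegral_liminf_le
          intro j
          fun_prop
      _ ≤ liminf (fun _ : ℕ => ENNReal.ofReal (M + 1)) atTop := by
          apply liminf_le_liminf (Eventually.of_forall fun j => ?_)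
          have hj1 : Integrable (fun z => z ^ (m + 1) * Real.log (min z (j + 1)) + 1) ζ :=
            (trunc_integrable H (hK j)).add (integrable_const 1)
          rw [← ofReal_integral_eq_lintegral_ofReal hj1]
          · apply ENNReal.ofReal_le_ofReal
            rw [integral_add (trunc_integrable H (hK j)) (integrable_const 1)]
            have := hcon j
            unfold AK at this
            simp only [integral_const, probReal_univ, smul_eq_mul, mul_one]
            linarith
          · filter_upwards [H.pos] with z hz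
            have := pow_log_ge hz m (hK j)
            simp only [Pi.zero_apply]
            linarith
      _ = _ := liminf_const _
  have h2 : Integrable (fun z => z ^ (m + 1) * Real.log z + 1) ζ := by
    refine ⟨Measurable.aestronglyMeasurable (by fun_prop), ?_⟩
    rw [hasFiniteIntegral_iff_ofReal]
    · exact h1.trans_lt ENNReal.ofReal_lt_top
    · filter_upwards [H.pos] with z hz
      have h3 : -1 ≤ z ^ (m + 1) * Real.log z := by
        have := pow_log_ge hz m (K := max z 1) (le_max_right _ _)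
        rwa [min_eq_left (le_max_left _ _)] at this
      simp only [Pi.zero_apply]
      linarith
  have h3 := h2.sub (integrable_const 1)
  refine h3.congr (Eventually.of_forall fun z => ?_)
  simp

/-! ### pointwise bounds on `ℓ(w) - ℓ(z w)` -/

lemma ell_sub {z w : ℝ} (hz : 0 < z) (hw : 0 < w) :
    ell w - ell (z * w) = Real.log z + Real.log (1 + w) - Real.log (1 + z * w) := by
  have e1 : ell w = Real.log (1 + w) - Real.log w := by
    unfold ell
    rw [← Real.log_div (by positivity) hw.ne']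
    congr 1
    field_simp
    ring
  have e2 : ell (z * w) = Real.log (1 + z * w) - (Real.log z + Real.log w) := by
    unfold ell
    rw [← Real.log_mul hz.ne' hw.ne', ← Real.log_div (by positivity) (by positivity)]
    congr 1
    field_simp
    ring
  rw [e1, e2]
  ring

lemma ell_upper {z w : ℝ} (hz : 0 < z) (hw : 0 < w) : ell w - ell (z * w) ≤ Real.log z + w := by
  rw [ell_sub hz hw]
  have h1 : Real.log (1 + w) ≤ w := by
    have := Real.log_le_sub_one_of_pos (show 0 < 1 + w by linarith)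
    linarith
  have h2 : 0 ≤ Real.log (1 + z * w) := Real.log_nonneg (by nlinarith [mul_pos hz hw])
  linarith

lemma ell_lower {z w K : ℝ} (hz : 0 < z) (hw : 0 < w) (hK : 1 ≤ K) :
    Real.log (min z K) - K * w ≤ ell w - ell (z * w) := by
  rw [ell_sub hz hw]
  have h0 : 0 ≤ Real.log (1 + w) := Real.log_nonneg (by linarith)
  rcases le_total z K with h | h
  · rw [min_eq_left h]
    have h1 : Real.log (1 + z * w) ≤ z * w := by
      have := Real.log_le_sub_one_of_pos (show 0 < 1 + z * w by nlinarith [mul_pos hz hw])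
      linarith
    nlinarith
  · rw [min_eq_right h]
    have hK0 : 0 < K := by linarith
    have h1 : Real.log (1 + K * w) ≤ K * w := by
      have := Real.log_le_sub_one_of_pos (show 0 < 1 + K * w by nlinarith [mul_pos hK0 hw])
      linarith
    have h2 : Real.log (K * (1 + z * w)) ≤ Real.log (z * (1 + K * w)) := by
      apply Real.log_le_log (by positivity)
      nlinarith
    rw [Real.log_mul hK0.ne' (by positivity), Real.log_mul hz.ne' (by positivity)] at h2
    linarith

/-- lower drift inequality -/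
lemma lambda_lower (H : Hyp ζ m) {K : ℝ} (hK : 1 ≤ K) :
    ∃ C : ℝ, 0 ≤ C ∧ ∀ (t : ℝ) (ν : Measure ℝ), 0 < t → t ≤ 1 → IsInv ζ t ν →
      AK ζ m K * ∫ y, y ^ (m + 1) ∂ν ≤
        Real.log (1 / t) * ∫ y, ((t + y) ^ (m + 1) - y ^ (m + 1)) ∂ν + C * t ^ (m + 1) := by
  obtain ⟨C1, hC10, hC1⟩ := log_identity H
  obtain ⟨C2, hC20, hC2⟩ := hat_bound H
  refine ⟨C1 + K * C2, by positivity, fun t ν ht ht1 h => ?_⟩
  have hb : ∀ w : ℝ, t ≤ w → w ≤ 1 → |w ^ (m + 1) * ell w| ≤ 1 := by
    intro w hw hw1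
    have hw0 : 0 ≤ w := ht.le.trans hw
    exact (pow_ell_le hw0).trans (pow_le_one₀ hw0 hw1)
  have hi2 : Integrable (fun y => y ^ (m + 1) * ell y) ν := by
    refine Integrable.mono' (pow_moment H h ht ht1 (k := m) (by omega)).1
      (Measurable.aestronglyMeasurable (by have := ell_measurable; fun_prop)) ?_
    filter_upwards [h.nonneg] with y hy using pow_ell_le hy
  have h1 := lower_identity H h ht ht1 (k := ell) ell_measurable hb hi2
    (φ := fun z => z ^ (m + 1) * Real.log (min z K)) (ψ := fun w => w ^ (m + 1))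
    (trunc_integrable H hK) (by fun_prop) (C := 1) (by
      intro w hw hw1
      have hw0 : 0 ≤ w := ht.le.trans hw
      rw [abs_of_nonneg (pow_nonneg hw0 _)]
      exact pow_le_one₀ hw0 hw1) (c := K) (by
      intro z w hz hw _
      have h2 := ell_lower hz hw hK
      have h3 : 0 < z ^ (m + 1) * w ^ (m + 1) := by positivity
      calc _ = z ^ (m + 1) * w ^ (m + 1) * (Real.log (min z K) - K * w) := by ring
        _ ≤ _ := mul_le_mul_of_nonneg_left h2 h3.le)
  have h4 := (abs_le.1 (hC1 t ν ht ht1 h)).2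
  have h5 := hC2 t ν ht ht1 h
  have h6 := (pow_moment H h ht ht1 (k := m + 1) le_rfl).2
  rw [rho_top H, one_mul] at h6
  rw [← h6] at h1
  unfold AK
  have h7 : K * ∫ y, hat t y ^ (m + 2) ∂ν ≤ K * (C2 * t ^ (m + 1)) :=
    mul_le_mul_of_nonneg_left h5 (by linarith)
  linarith

/-- upper drift inequality -/
lemma lambda_upper (H : Hyp ζ m) (hi : Integrable (fun z => z ^ (m + 1) * Real.log z) ζ) :
    ∃ C : ℝ, 0 ≤ C ∧ ∀ (t : ℝ) (ν : Measure ℝ), 0 < t → t ≤ 1 → IsInv ζ t ν →
      Real.log (1 / t) * ∫ y, ((t + y) ^ (m + 1) - y ^ (m + 1)) ∂ν - C * t ^ (m + 1) ≤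
      (∫ z, z ^ (m + 1) * Real.log z ∂ζ) * ∫ y, y ^ (m + 1) ∂ν := by
  obtain ⟨C1, hC10, hC1⟩ := log_identity H
  obtain ⟨C2, hC20, hC2⟩ := hat_bound H
  refine ⟨C1 + C2, by positivity, fun t ν ht ht1 h => ?_⟩
  have hb : ∀ w : ℝ, t ≤ w → w ≤ 1 → |w ^ (m + 1) * (-ell w)| ≤ 1 := by
    intro w hw hw1
    have hw0 : 0 ≤ w := ht.le.trans hw
    rw [mul_neg, abs_neg]
    exact (pow_ell_le hw0).trans (pow_le_one₀ hw0 hw1)
  have hi2 : Integrable (fun y => y ^ (m + 1) * (-ell y)) ν := by
    refine Integrable.mono' (pow_moment H h ht ht1 (k := m) (by omega)).1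
      (Measurable.aestronglyMeasurable (by have := ell_measurable; fun_prop)) ?_
    filter_upwards [h.nonneg] with y hy
    rw [mul_neg, norm_neg]
    exact pow_ell_le hy
  have h1 := lower_identity H h ht ht1 (k := fun w => -ell w) ell_measurable.neg hb hi2
    (φ := fun z => -(z ^ (m + 1) * Real.log z)) (ψ := fun w => w ^ (m + 1))
    hi.neg (by fun_prop) (C := 1) (by
      intro w hw hw1
      have hw0 : 0 ≤ w := ht.le.trans hw
      rw [abs_of_nonneg (pow_nonneg hw0 _)]
      exact pow_le_one₀ hw0 hw1) (c := 1) (by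
      intro z w hz hw _
      have h2 := ell_upper hz hw
      have h3 : 0 < z ^ (m + 1) * w ^ (m + 1) := by positivity
      have h4 := mul_le_mul_of_nonneg_left h2 h3.le
      calc _ = -(z ^ (m + 1) * w ^ (m + 1) * (Real.log z + w)) := by ring
        _ ≤ -(z ^ (m + 1) * w ^ (m + 1) * (ell w - ell (z * w))) := by linarith
        _ = _ := by ring)
  have h4 := (abs_le.1 (hC1 t ν ht ht1 h)).1
  have h5 := hC2 t ν ht ht1 h
  have h6 := (pow_moment H h ht ht1 (k := m + 1) le_rfl).2
  rw [rho_top H, one_mul] at h6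
  rw [← h6] at h1
  simp only [mul_neg, integral_neg] at h1
  linarith

end

end Pool.Agent.H646R3.DH
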