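import Pool.Agent.H646R3.DH.Lambda

set_option autoImplicit false
open MeasureTheory Filter Topology Set

namespace Pool.Agent.H646R3.DH

noncomputable section

variable {ζ : Measure ℝ} {m : ℕ}

/-- a family of invariant laws -/
def Fam (ζ : Measure ℝ) (ν : ℝ → Measure ℝ) : Prop := ∀ t, 0 < t → t ≤ 1 → IsInv ζ t (ν t)

/-- moments -/
def mo (ν : ℝ → Measure ℝ) (k : ℕ) (t : ℝ) : ℝ := ∫ y, y ^ k ∂(ν t)

lemma ev_small : ∀ᶠ t : ℝ in 𝓝[>] 0, 0 < t ∧ t ≤ 1 := by
  filter_upwards [Ioo_mem_nhdsGT (show (0:ℝ) < 1 by norm_num)] with t ht using ⟨ht.1, ht.2.le⟩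

lemma expand (H : Hyp ζ m) {ν : ℝ → Measure ℝ} (hF : Fam ζ ν) {k : ℕ} (hk : k ≤ m + 1) {t : ℝ}
    (ht : 0 < t) (ht1 : t ≤ 1) :
    Integrable (fun y => (t + y) ^ k) (ν t) ∧
    ∫ y, (t + y) ^ k ∂(ν t) = ∑ i ∈ Finset.range (k + 1), (k.choose i : ℝ) * (t ^ (k - i) * mo ν i t)
    := by
  have h := hF t ht ht1
  have hi : ∀ i ∈ Finset.range (k + 1), Integrable
      (fun y => (k.choose i : ℝ) * (t ^ (k - i) * y ^ i)) (ν t) := by
    intro i hi
    have : i ≤ m + 1 := by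
      have := Finset.mem_range.1 hi
      omega
    exact ((pow_moment H h ht ht1 this).1.const_mul _).const_mul _
  have e : (fun y : ℝ => (t + y) ^ k) =
      fun y => ∑ i ∈ Finset.range (k + 1), (k.choose i : ℝ) * (t ^ (k - i) * y ^ i) := by
    funext y
    rw [add_comm t y, add_pow]
    refine Finset.sum_congr rfl fun i _ => ?_
    ring
  rw [e]
  constructor
  · exact integrable_finsetSum _ hi
  · rw [integral_finsetSum _ hi]
    refine Finset.sum_congr rfl fun i _ => ?_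
    rw [integral_const_mul, integral_const_mul]
    rfl

lemma expand_div (H : Hyp ζ m) {ν : ℝ → Measure ℝ} (hF : Fam ζ ν) {k : ℕ} (hk : k ≤ m + 1) {t : ℝ}
    (ht : 0 < t) (ht1 : t ≤ 1) :
    (∫ y, (t + y) ^ k ∂(ν t)) / t ^ k =
      ∑ i ∈ Finset.range (k + 1), (k.choose i : ℝ) * (mo ν i t / t ^ i) := by
  rw [(expand H hF hk ht ht1).2, Finset.sum_div]
  refine Finset.sum_congr rfl fun i hi => ?_
  have : i ≤ k := by
    have := Finset.mem_range.1 hi
    omega
  have e : t ^ k = t ^ (k - i) * t ^ i := by rw [← pow_add]; congr 1; omega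
  rw [e]
  field_simp

/-- `E[(t+Y)^k] - E[Ŷ^k] = O(t^k √t)` for `k ≤ m` -/
lemma hat_err (H : Hyp ζ m) :
    ∃ C : ℝ, 0 ≤ C ∧ ∀ (t : ℝ) (ν : Measure ℝ), 0 < t → t ≤ 1 → IsInv ζ t ν → ∀ k ≤ m,
      |∫ y, ((t + y) ^ k - hat t y ^ k) ∂ν| ≤ C * (t ^ k * √t) := by
  obtain ⟨C, hC0, hC⟩ := half_moment H
  refine ⟨m * C, by positivity, fun t ν ht ht1 h k hk => ?_⟩
  have := h.prob
  obtain ⟨g1, g2⟩ := int_le_of_half h (hC t ν ht ht1 h)
    (f := fun y => (t + y) ^ k - hat t y ^ k)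
    (by have := hat_measurable t; fun_prop) (c := m * (t ^ k * √t)) (by positivity) (by
      intro y hy
      have hh := hat_pos ht hy
      have e : (t + y) ^ k - hat t y ^ k = (t + y) ^ k * (1 - 1 / (1 + y) ^ k) := by
        unfold hat
        rw [div_pow]
        ring
      have hB := bern hy k
      have hB0 := bern_nonneg hy k
      rw [e, abs_of_nonneg (by positivity)]
      have hW := one_le_W ht hy
      have h1 : y / (1 + y) ≤ √t * √((t + y) / t) := by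
        rw [← Real.sqrt_mul ht.le, mul_div_cancel₀ _ ht.ne']
        have h2 : y / (1 + y) ≤ √y := by
          rw [div_le_iff₀ (by linarith)]
          have h3 := Real.sq_sqrt hy
          have h4 := Real.sqrt_nonneg y
          nlinarith [sq_nonneg (√y - 1)]
        exact h2.trans (Real.sqrt_le_sqrt (by linarith))
      have h5 : ((t + y) / t) ^ k ≤ ((t + y) / t) ^ m := pow_le_pow_right₀ hW hk
      have h6 : (k : ℝ) ≤ m := by exact_mod_cast hk
      calc (t + y) ^ k * (1 - 1 / (1 + y) ^ k) ≤ (t + y) ^ k * (k * (y / (1 + y))) :=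
            mul_le_mul_of_nonneg_left hB (by positivity)
        _ ≤ (t + y) ^ k * (m * (√t * √((t + y) / t))) := by gcongr
        _ = m * (t ^ k * √t) * (((t + y) / t) ^ k * √((t + y) / t)) := by
            rw [add_pow_eq ht y k]; ring
        _ ≤ _ := by gcongr)
  refine g2.trans (le_of_eq ?_)
  ring

lemma sqrt_tendsto : Tendsto (fun t : ℝ => √t) (𝓝[>] 0) (𝓝 0) := by
  have : Tendsto (fun t : ℝ => √t) (𝓝 0) (𝓝 (√0)) := Real.continuous_sqrt.continuousAt
  rw [Real.sqrt_zero] at this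
  exact this.mono_left nhdsWithin_le_nhds

lemma e_tendsto (H : Hyp ζ m) {ν : ℝ → Measure ℝ} (hF : Fam ζ ν) (k : ℕ) (hk : k ≤ m) :
    ∃ p : ℝ, 0 ≤ p ∧ (k = 0 → p = 1) ∧
      Tendsto (fun t => mo ν k t / t ^ k) (𝓝[>] 0) (𝓝 p) := by
  induction k using Nat.strong_induction_on with
  | _ k ih =>
  rcases Nat.eq_zero_or_pos k with rfl | hk0
  · refine ⟨1, by norm_num, fun _ => rfl, tendsto_const_nhds.congr' ?_⟩
    filter_upwards [ev_small] with t ht
    have := (hF t ht.1 ht.2).prob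
    simp [mo]
  have hρ1 := rho_lt H hk0 hk
  have hρ0 := rho_pos H (show k ≤ m + 1 by omega)
  have ih' : ∀ i : ℕ, ∃ p : ℝ, i < k → 0 ≤ p ∧
      Tendsto (fun t => mo ν i t / t ^ i) (𝓝[>] 0) (𝓝 p) := by
    intro i
    by_cases hi : i < k
    · obtain ⟨p, hp0, _, hp⟩ := ih i hi (by omega)
      exact ⟨p, fun _ => ⟨hp0, hp⟩⟩
    · exact ⟨0, fun h => absurd h hi⟩
  choose p hp using ih'
  obtain ⟨C, hC0, hC⟩ := hat_err H
  have hr : Tendsto (fun t => (∫ y, ((t + y) ^ k - hat t y ^ k) ∂(ν t)) / t ^ k) (𝓝[>] 0) (𝓝 0) := by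
    apply squeeze_zero_norm' (a := fun t => C * √t)
    · filter_upwards [ev_small] with t ht
      have h1 := hC t (ν t) ht.1 ht.2 (hF t ht.1 ht.2) k hk
      have h2 : 0 < t ^ k := pow_pos ht.1 k
      rw [norm_div, Real.norm_eq_abs, Real.norm_of_nonneg h2.le, div_le_iff₀ h2]
      calc _ ≤ _ := h1
        _ = _ := by ring
    · have := sqrt_tendsto.const_mul C
      simpa using this
  refine ⟨rho ζ k / (1 - rho ζ k) * (∑ i ∈ Finset.range k, (k.choose i : ℝ) * p i - 0), ?_, by omega,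
    ?_⟩
  · have h1 : 0 ≤ ∑ i ∈ Finset.range k, (k.choose i : ℝ) * p i := by
      apply Finset.sum_nonneg
      intro i hi
      have := (hp i (Finset.mem_range.1 hi)).1
      positivity
    have h2 : 0 < 1 - rho ζ k := by linarith
    rw [sub_zero]
    positivity
  have hs : Tendsto (fun t => ∑ i ∈ Finset.range k, (k.choose i : ℝ) * (mo ν i t / t ^ i)) (𝓝[>] 0)
      (𝓝 (∑ i ∈ Finset.range k, (k.choose i : ℝ) * p i)) := by
    apply tendsto_finsetSum
    intro i hi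
    exact ((hp i (Finset.mem_range.1 hi)).2).const_mul _
  refine ((hs.sub hr).const_mul (rho ζ k / (1 - rho ζ k))).congr' ?_
  filter_upwards [ev_small] with t ht
  have h := hF t ht.1 ht.2
  have h2 : 0 < t ^ k := pow_pos ht.1 k
  have e1 := (pow_moment H h ht.1 ht.2 (show k ≤ m + 1 by omega)).2
  have e2 := expand_div H hF (show k ≤ m + 1 by omega) ht.1 ht.2
  rw [Finset.sum_range_succ] at e2
  have e3 : ∫ y, ((t + y) ^ k - hat t y ^ k) ∂(ν t) = ∫ y, (t + y) ^ k ∂(ν t) - ∫ y, hat t y ^ k ∂(ν t) :=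
    integral_sub (expand H hF (show k ≤ m + 1 by omega) ht.1 ht.2).1
      (hat_pow_integrable h ht.1 ht.2 k)
  have e4 : mo ν k t = rho ζ k * ∫ y, hat t y ^ k ∂(ν t) := e1
  have hne : 1 - rho ζ k ≠ 0 := by linarith
  simp only [Nat.choose_self, Nat.cast_one, one_mul] at e2
  have e5 : ∑ i ∈ Finset.range k, (k.choose i : ℝ) * (mo ν i t / t ^ i) =
      (∫ y, (t + y) ^ k ∂(ν t)) / t ^ k - mo ν k t / t ^ k := by linarith
  rw [e5, e3]
  set A := ∫ y, (t + y) ^ k ∂(ν t)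
  set B := ∫ y, hat t y ^ k ∂(ν t)
  have e6 : A / t ^ k - mo ν k t / t ^ k - (A - B) / t ^ k = (B - mo ν k t) / t ^ k := by
    field_simp
    ring
  rw [e6, e4]
  field_simp

lemma kappa_tendsto (H : Hyp ζ m) {ν : ℝ → Measure ℝ} (hF : Fam ζ ν) :
    ∃ κ : ℝ, 1 ≤ κ ∧ Tendsto (fun t => (∫ y, ((t + y) ^ (m + 1) - y ^ (m + 1)) ∂(ν t)) / t ^ (m + 1))
      (𝓝[>] 0) (𝓝 κ) := by
  have h1 : ∀ i : ℕ, ∃ p : ℝ, i ≤ m → 0 ≤ p ∧ (i = 0 → p = 1) ∧
      Tendsto (fun t => mo ν i t / t ^ i) (𝓝[>] 0) (𝓝 p) := by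
    intro i
    by_cases hi : i ≤ m
    · obtain ⟨p, hp⟩ := e_tendsto H hF i hi
      exact ⟨p, fun _ => hp⟩
    · exact ⟨0, fun h => absurd h hi⟩
  choose p hp using h1
  refine ⟨∑ i ∈ Finset.range (m + 1), ((m + 1).choose i : ℝ) * p i, ?_, ?_⟩
  · have h2 : ((m + 1).choose 0 : ℝ) * p 0 ≤ ∑ i ∈ Finset.range (m + 1), ((m + 1).choose i : ℝ) * p i := by
      apply Finset.single_le_sum (f := fun i => ((m + 1).choose i : ℝ) * p i) _
        (Finset.mem_range.2 (Nat.succ_pos m))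
      intro i hi
      have := (hp i (by have := Finset.mem_range.1 hi; omega)).1
      positivity
    have h3 := (hp 0 (Nat.zero_le _)).2.1 rfl
    rw [h3] at h2
    simpa using h2
  · have hs : Tendsto (fun t => ∑ i ∈ Finset.range (m + 1),
        ((m + 1).choose i : ℝ) * (mo ν i t / t ^ i)) (𝓝[>] 0)
        (𝓝 (∑ i ∈ Finset.range (m + 1), ((m + 1).choose i : ℝ) * p i)) := by
      apply tendsto_finsetSum
      intro i hi
      exact ((hp i (by have := Finset.mem_range.1 hi; omega)).2.2).const_mul _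
    refine hs.congr' ?_
    filter_upwards [ev_small] with t ht
    have h := hF t ht.1 ht.2
    have e2 := expand_div H hF (le_refl (m + 1)) ht.1 ht.2
    rw [Finset.sum_range_succ] at e2
    rw [integral_sub (expand H hF le_rfl ht.1 ht.2).1 (pow_moment H h ht.1 ht.2 le_rfl).1, sub_div,
      e2]
    simp [mo]

lemma log_inv_tendsto : Tendsto (fun t : ℝ => Real.log (1 / t)) (𝓝[>] 0) atTop := by
  have h1 : Tendsto (fun t : ℝ => t⁻¹) (𝓝[>] 0) atTop := tendsto_inv_nhdsGT_zero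
  refine (Real.tendsto_log_atTop.comp h1).congr fun t => ?_
  simp [one_div]

lemma lambda_tendsto (H : Hyp ζ m) {ν : ℝ → Measure ℝ} (hF : Fam ζ ν) :
    ∃ c : ℝ, 0 ≤ c ∧ (0 < c ↔ Integrable (fun z => z ^ (m + 1) * Real.log z) ζ) ∧
      Tendsto (fun t => (mo ν (m + 1) t / t ^ (m + 1)) / Real.log (1 / t)) (𝓝[>] 0) (𝓝 c) := by
  obtain ⟨κ, hκ1, hκ⟩ := kappa_tendsto H hF
  have hL := log_inv_tendsto
  have hLpos : ∀ᶠ t : ℝ in 𝓝[>] 0, 0 < Real.log (1 / t) := hL.eventually_gt_atTop 0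
  -- upper estimate
  have hup : ∀ K : ℝ, 1 ≤ K → 0 < AK ζ m K → ∀ b, κ / AK ζ m K < b →
      ∀ᶠ t in 𝓝[>] (0:ℝ), (mo ν (m + 1) t / t ^ (m + 1)) / Real.log (1 / t) < b := by
    intro K hK hA b hb
    obtain ⟨C, hC0, hC⟩ := lambda_lower H hK
    have h1 : Tendsto (fun t => ((∫ y, ((t + y) ^ (m + 1) - y ^ (m + 1)) ∂(ν t)) / t ^ (m + 1) +
        C / Real.log (1 / t)) / AK ζ m K) (𝓝[>] 0) (𝓝 ((κ + 0) / AK ζ m K)) :=
      (hκ.add (hL.const_div_atTop C)).div_const _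
    rw [add_zero] at h1
    filter_upwards [h1.eventually (gt_mem_nhds hb), ev_small, hLpos] with t h2 ht hl
    refine lt_of_le_of_lt ?_ h2
    have h3 := hC t (ν t) ht.1 ht.2 (hF t ht.1 ht.2)
    have htn : 0 < t ^ (m + 1) := pow_pos ht.1 _
    rw [le_div_iff₀ hA, div_mul_eq_mul_div, div_le_iff₀ hl, div_mul_eq_mul_div, div_le_iff₀ htn]
    set D := ∫ y, ((t + y) ^ (m + 1) - y ^ (m + 1)) ∂(ν t)
    have e : (D / t ^ (m + 1) + C / Real.log (1 / t)) * Real.log (1 / t) * t ^ (m + 1) =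
        Real.log (1 / t) * D + C * t ^ (m + 1) := by
      have := hl.ne'
      field_simp
    rw [e]
    have e2 : mo ν (m + 1) t * AK ζ m K = AK ζ m K * ∫ y, y ^ (m + 1) ∂(ν t) := by
      unfold mo; ring
    rw [e2]
    exact h3
  have hnn : ∀ᶠ t in 𝓝[>] (0:ℝ), 0 ≤ (mo ν (m + 1) t / t ^ (m + 1)) / Real.log (1 / t) := by
    filter_upwards [ev_small, hLpos] with t ht hl
    have : 0 ≤ mo ν (m + 1) t := by
      apply integral_nonneg_of_ae
      filter_upwards [(hF t ht.1 ht.2).nonneg] with y hy using pow_nonneg hy _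
    have := pow_pos ht.1 (m + 1)
    positivity
  by_cases hi : Integrable (fun z => z ^ (m + 1) * Real.log z) ζ
  · have hμ := drift_pos H hi
    set μ1 := ∫ z, z ^ (m + 1) * Real.log z ∂ζ with hμdef
    have hc : 0 < κ / μ1 := div_pos (by linarith) hμ
    refine ⟨κ / μ1, hc.le, ⟨fun _ => hi, fun _ => hc⟩, ?_⟩
    obtain ⟨C, hC0, hC⟩ := lambda_upper H hi
    rw [tendsto_order]
    constructor
    · intro a ha
      have h1 : Tendsto (fun t => ((∫ y, ((t + y) ^ (m + 1) - y ^ (m + 1)) ∂(ν t)) / t ^ (m + 1) -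
          C / Real.log (1 / t)) / μ1) (𝓝[>] 0) (𝓝 ((κ - 0) / μ1)) :=
        (hκ.sub (hL.const_div_atTop C)).div_const _
      rw [sub_zero] at h1
      filter_upwards [h1.eventually (lt_mem_nhds ha), ev_small, hLpos] with t h2 ht hl
      refine lt_of_lt_of_le h2 ?_
      have h3 := hC t (ν t) ht.1 ht.2 (hF t ht.1 ht.2)
      have htn : 0 < t ^ (m + 1) := pow_pos ht.1 _
      rw [div_le_iff₀ hμ, div_mul_eq_mul_div, le_div_iff₀ hl, div_mul_eq_mul_div, le_div_iff₀ htn]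
      set D := ∫ y, ((t + y) ^ (m + 1) - y ^ (m + 1)) ∂(ν t)
      have e : (D / t ^ (m + 1) - C / Real.log (1 / t)) * Real.log (1 / t) * t ^ (m + 1) =
          Real.log (1 / t) * D - C * t ^ (m + 1) := by
        have := hl.ne'
        field_simp
      rw [e]
      have e2 : mo ν (m + 1) t * μ1 = μ1 * ∫ y, y ^ (m + 1) ∂(ν t) := by
        unfold mo; ring
      rw [e2]
      exact h3
    · intro b hb
      have hA := AK_tendsto H hi
      have h1 : Tendsto (fun j : ℕ => κ / AK ζ m (j + 1)) atTop (𝓝 (κ / μ1)) :=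
        tendsto_const_nhds.div hA hμ.ne'
      obtain ⟨j, hj1, hj2⟩ := ((h1.eventually (gt_mem_nhds hb)).and
        (hA.eventually (lt_mem_nhds hμ))).exists
      exact hup (j + 1) (by have : (0:ℝ) ≤ j := Nat.cast_nonneg j; linarith) hj2 b hj1
  · refine ⟨0, le_rfl, ⟨fun h => absurd h (lt_irrefl _), fun h => absurd h hi⟩, ?_⟩
    rw [tendsto_order]
    constructor
    · intro a ha
      filter_upwards [hnn] with t ht using ha.trans_le ht
    · intro b hb
      obtain ⟨j, hj⟩ := AK_unbounded H hi (κ / b)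
      have hκ0 : 0 < κ := by linarith
      have hA : 0 < AK ζ m (j + 1) := (div_pos hκ0 hb).trans hj
      refine hup (j + 1) (by have : (0:ℝ) ≤ j := Nat.cast_nonneg j; linarith) hA b ?_
      rw [div_lt_iff₀ hA]
      rw [div_lt_iff₀ hb] at hj
      linarith

end

end Pool.Agent.H646R3.DH
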