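import Pool.Agent.H646R3.DH.Half

set_option autoImplicit false
open MeasureTheory Filter Topology Set

namespace Pool.Agent.H646R3.DH

noncomputable section

variable {ζ : Measure ℝ} {m : ℕ} {t : ℝ} {ν : Measure ℝ}

/-- `ℓ(w) = log (1 + 1/w)` -/
def ell (w : ℝ) : ℝ := Real.log (1 + 1 / w)

lemma ell_measurable : Measurable ell := by
  unfold ell
  fun_prop

lemma ell_nonneg {w : ℝ} (hw : 0 ≤ w) : 0 ≤ ell w := by
  unfold ell
  apply Real.log_nonneg
  have : 0 ≤ 1 / w := by positivity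
  linarith

lemma log_one_add_le (a : ℝ) (ha : 0 ≤ a) : Real.log (1 + a) ≤ 2 * √a := by
  have h1 : Real.log (1 + a) = 2 * Real.log (√(1 + a)) := by
    rw [Real.log_sqrt (by linarith)]
    ring
  have h2 : Real.log (√(1 + a)) ≤ √(1 + a) - 1 :=
    Real.log_le_sub_one_of_pos (Real.sqrt_pos.2 (by linarith))
  have h3 : √(1 + a) ≤ 1 + √a := by
    rw [Real.sqrt_le_left (by positivity)]
    nlinarith [Real.sq_sqrt ha, Real.sqrt_nonneg a]
  rw [h1]
  linarith

lemma pow_ell_le {w : ℝ} (hw : 0 ≤ w) : |w ^ (m + 1) * ell w| ≤ w ^ m := by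
  rcases hw.eq_or_lt with rfl | hw
  · simp
  rw [abs_of_nonneg (mul_nonneg (by positivity) (ell_nonneg hw.le))]
  have h1 : ell w ≤ 1 / w := by
    unfold ell
    have := Real.log_le_sub_one_of_pos (show 0 < 1 + 1 / w by positivity)
    linarith
  calc w ^ (m + 1) * ell w ≤ w ^ (m + 1) * (1 / w) := mul_le_mul_of_nonneg_left h1 (by positivity)
    _ = w ^ m := by
        field_simp
        ring

/-- the error terms -/
lemma ell_hat_eq (ht : 0 < t) {y : ℝ} (hy : 0 ≤ y) :
    ell (hat t y) = Real.log (1 / t) + Real.log (t + t / hat t y) := by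
  unfold ell
  have hh := hat_pos ht hy
  rw [← Real.log_mul (by positivity) (by positivity)]
  congr 1
  field_simp

lemma log_err (ht : 0 < t) (ht1 : t ≤ 1) {y : ℝ} (hy : 0 ≤ y) :
    |Real.log (t + t / hat t y)| ≤ 2 * √((t + y) / t) := by
  have hh := hat_pos ht hy
  have hW := one_le_W ht hy
  have h1 : t / hat t y ≤ 1 := by
    rw [div_le_one hh]
    exact le_hat ht1 hy
  have hs1 : 1 ≤ √((t + y) / t) := by rw [Real.one_le_sqrt]; exact hW
  have h2 : Real.log (t + t / hat t y) ≤ 1 := by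
    have := Real.log_le_sub_one_of_pos (show 0 < t + t / hat t y by positivity)
    linarith
  have h3 : 1 / ((t + y) / t) ≤ t + t / hat t y := by
    have h4 : t / (t + y) ≤ t / hat t y := div_le_div_of_nonneg_left ht.le hh (hat_le ht hy)
    rw [one_div_div]
    linarith
  have h5 : -Real.log ((t + y) / t) ≤ Real.log (t + t / hat t y) := by
    rw [← Real.log_inv, ← one_div]
    exact Real.log_le_log (by positivity) h3
  have h6 : Real.log ((t + y) / t) ≤ 2 * √((t + y) / t) := by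
    have h7 := log_one_add_le ((t + y) / t - 1) (by linarith)
    rw [add_sub_cancel] at h7
    have h8 : √((t + y) / t - 1) ≤ √((t + y) / t) := Real.sqrt_le_sqrt (by linarith)
    linarith
  rw [abs_le]
  constructor <;> linarith

lemma ell_hat_le (ht : 0 < t) {y : ℝ} (hy : 0 ≤ y) :
    (y / (1 + y)) * ell (hat t y) ≤ 2 * √(hat t y) := by
  have hh := hat_pos ht hy
  have h1 := log_one_add_le (1 / hat t y) (by positivity)
  have h2 : √(1 / hat t y) = 1 / √(hat t y) := by rw [one_div, one_div, Real.sqrt_inv]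
  rw [h2] at h1
  have hs : 0 < √(hat t y) := Real.sqrt_pos.2 hh
  have h3 := div_le_hat ht hy
  have h4 : 0 ≤ ell (hat t y) := ell_nonneg hh.le
  calc (y / (1 + y)) * ell (hat t y) ≤ hat t y * ell (hat t y) := mul_le_mul_of_nonneg_right h3 h4
    _ ≤ hat t y * (2 * (1 / √(hat t y))) := mul_le_mul_of_nonneg_left h1 hh.le
    _ = 2 * ((√(hat t y) * √(hat t y)) * (1 / √(hat t y))) := by
        rw [Real.mul_self_sqrt hh.le]; ring
    _ = 2 * √(hat t y) := by field_simp

lemma ell_diff (ht : 0 < t) {y : ℝ} (hy : 0 < y) :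
    |ell (hat t y) - ell y| ≤ (t + y) / (1 + y) + t / y := by
  have e1 : ell (hat t y) = Real.log ((1 + t + 2 * y) / (1 + y)) - Real.log ((t + y) / (1 + y)) := by
    unfold ell hat
    rw [← Real.log_div (by positivity) (by positivity)]
    congr 1
    field_simp
    ring
  have e2 : ell y = Real.log ((t + y) / y) - Real.log ((t + y) / (1 + y)) := by
    unfold ell
    rw [← Real.log_div (by positivity) (by positivity)]
    congr 1
    field_simp
    ring
  have a1 : 0 ≤ Real.log ((1 + t + 2 * y) / (1 + y)) := by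
    apply Real.log_nonneg
    rw [le_div_iff₀ (by linarith)]
    linarith
  have a2 : Real.log ((1 + t + 2 * y) / (1 + y)) ≤ (t + y) / (1 + y) := by
    have := Real.log_le_sub_one_of_pos (show 0 < (1 + t + 2 * y) / (1 + y) by positivity)
    have h2 : (1 + t + 2 * y) / (1 + y) - 1 = (t + y) / (1 + y) := by
      field_simp
      ring
    linarith
  have a3 : 0 ≤ Real.log ((t + y) / y) := by
    apply Real.log_nonneg
    rw [le_div_iff₀ hy]
    linarith
  have a4 : Real.log ((t + y) / y) ≤ t / y := by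
    have := Real.log_le_sub_one_of_pos (show 0 < (t + y) / y by positivity)
    have h2 : (t + y) / y - 1 = t / y := by
      field_simp
      ring
    linarith
  rw [e1, e2, abs_le]
  constructor <;> linarith

lemma t_pow_le (ht : 0 < t) (ht1 : t ≤ 1) {y : ℝ} (hy : 0 ≤ y) :
    t * y ^ (m + 1) ≤ t ^ (m + 1) + 2 * (y ^ (m + 2) / (1 + y)) := by
  rcases le_total y t with h | h
  · have h1 : y ^ (m + 1) ≤ t ^ (m + 1) := pow_le_pow_left₀ hy h _
    have h2 : 0 ≤ y ^ (m + 2) / (1 + y) := by positivity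
    have h3 : 0 ≤ t ^ (m + 1) := by positivity
    nlinarith
  · have h0 : 0 ≤ t ^ (m + 1) := by positivity
    have h1 : 0 ≤ y ^ (m + 1) := by positivity
    have h2 : t * y ^ (m + 1) ≤ 2 * (y ^ (m + 2) / (1 + y)) := by
      rw [mul_div_assoc', le_div_iff₀ (by linarith)]
      have h3 : t * (1 + y) ≤ 2 * y := by nlinarith
      calc t * y ^ (m + 1) * (1 + y) = (t * (1 + y)) * y ^ (m + 1) := by ring
        _ ≤ (2 * y) * y ^ (m + 1) := mul_le_mul_of_nonneg_right h3 h1
        _ = _ := by ring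
    linarith

/-- pointwise decomposition -/
lemma pointwise_log (ht : 0 < t) (ht1 : t ≤ 1) {y : ℝ} (hy : 0 ≤ y) :
    |hat t y ^ (m + 1) * ell (hat t y) - y ^ (m + 1) * ell y -
      Real.log (1 / t) * ((t + y) ^ (m + 1) - y ^ (m + 1))| ≤
      (4 * (m + 1) + 2 * (m + 1) ^ 2 + 2) * t ^ (m + 1) * (((t + y) / t) ^ m * √((t + y) / t)) +
      2 * (m + 1) * (y ^ (m + 1) * √(hat t y)) + 3 * (y ^ (m + 2) / (1 + y)) := by
  have hh := hat_pos ht hy
  set D := (t + y) ^ (m + 1) - y ^ (m + 1) with hD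
  set W := ((t + y) / t) ^ m * √((t + y) / t) with hWdef
  have hD0 : 0 ≤ D := pow_diff_nonneg ht.le hy _
  have hDle : D ≤ (m + 1) * t ^ (m + 1) * ((t + y) / t) ^ m := by
    have := pow_diff ht.le hy m
    rw [add_pow_eq ht y m] at this
    calc D ≤ _ := this
      _ = _ := by ring
  have hW1 : ((t + y) / t) ^ m ≤ W := W_pow_le ht hy le_rfl
  have hW0 : 1 ≤ W := by
    have h1 := one_le_W ht hy
    have h2 : 1 ≤ ((t + y) / t) ^ m := one_le_pow₀ h1
    linarith
  have htn : 0 < t ^ (m + 1) := by positivity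
  have hDW : D ≤ (m + 1) * t ^ (m + 1) * W :=
    hDle.trans (mul_le_mul_of_nonneg_left hW1 (by positivity))
  have hell0 : 0 ≤ ell (hat t y) := ell_nonneg hh.le
  -- e1
  have e1 : |D * Real.log (t + t / hat t y)| ≤ 2 * (m + 1) * t ^ (m + 1) * W := by
    rw [abs_mul, abs_of_nonneg hD0]
    calc D * |Real.log (t + t / hat t y)| ≤ ((m + 1) * t ^ (m + 1) * ((t + y) / t) ^ m) *
          (2 * √((t + y) / t)) := mul_le_mul hDle (log_err ht ht1 hy) (abs_nonneg _) (by positivity)
      _ = _ := by rw [hWdef]; ring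
  -- e2
  have hB : 1 - 1 / (1 + y) ^ (m + 1) ≤ ((m + 1 : ℕ) : ℝ) * (y / (1 + y)) := bern hy _
  have hB0 : 0 ≤ 1 - 1 / (1 + y) ^ (m + 1) := bern_nonneg hy _
  have e2 : |(t + y) ^ (m + 1) * (1 - 1 / (1 + y) ^ (m + 1)) * ell (hat t y)| ≤
      2 * (m + 1) * (y ^ (m + 1) * √(hat t y)) + 2 * (m + 1) ^ 2 * t ^ (m + 1) * W := by
    rw [abs_of_nonneg (by positivity)]
    have h1 : (1 - 1 / (1 + y) ^ (m + 1)) * ell (hat t y) ≤ (m + 1) * (2 * √(hat t y)) := by
      calc (1 - 1 / (1 + y) ^ (m + 1)) * ell (hat t y)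
          ≤ (((m + 1 : ℕ) : ℝ) * (y / (1 + y))) * ell (hat t y) :=
            mul_le_mul_of_nonneg_right hB hell0
        _ = (m + 1) * ((y / (1 + y)) * ell (hat t y)) := by push_cast; ring
        _ ≤ _ := mul_le_mul_of_nonneg_left (ell_hat_le ht hy) (by positivity)
    have h2 : (t + y) ^ (m + 1) = y ^ (m + 1) + D := by rw [hD]; ring
    have h3 : √(hat t y) ≤ 1 := Real.sqrt_le_one.2 (hat_le_one ht1 hy)
    calc (t + y) ^ (m + 1) * (1 - 1 / (1 + y) ^ (m + 1)) * ell (hat t y)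
        = (t + y) ^ (m + 1) * ((1 - 1 / (1 + y) ^ (m + 1)) * ell (hat t y)) := by ring
      _ ≤ (t + y) ^ (m + 1) * ((m + 1) * (2 * √(hat t y))) :=
          mul_le_mul_of_nonneg_left h1 (by positivity)
      _ = 2 * (m + 1) * (y ^ (m + 1) * √(hat t y)) + 2 * (m + 1) * (D * √(hat t y)) := by
          rw [h2]; ring
      _ ≤ 2 * (m + 1) * (y ^ (m + 1) * √(hat t y)) + 2 * (m + 1) * (D * 1) := by gcongr
      _ ≤ 2 * (m + 1) * (y ^ (m + 1) * √(hat t y)) + 2 * (m + 1) * (((m + 1) * t ^ (m + 1) * W) * 1)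
          := by gcongr
      _ = _ := by ring
  -- e3
  have e3 : |y ^ (m + 1) * (ell (hat t y) - ell y)| ≤
      2 * t ^ (m + 1) * W + 3 * (y ^ (m + 2) / (1 + y)) := by
    have hq : 0 ≤ y ^ (m + 2) / (1 + y) := by positivity
    rcases hy.eq_or_lt with rfl | hy'
    · simp only [ne_eq, Nat.add_eq_zero_iff, one_ne_zero, and_false, not_false_eq_true, zero_pow,
        zero_mul, abs_zero]
      positivity
    rw [abs_mul, abs_of_nonneg (by positivity)]
    have h1 := ell_diff ht hy'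
    have h2 := t_pow_le (m := m) ht ht1 hy
    have h3 : t * y ^ m ≤ t ^ (m + 1) * W := by
      have h4 : y ^ m ≤ (t + y) ^ m := pow_le_pow_left₀ hy (by linarith) _
      calc t * y ^ m ≤ t * (t + y) ^ m := mul_le_mul_of_nonneg_left h4 ht.le
        _ = t ^ (m + 1) * ((t + y) / t) ^ m := by rw [add_pow_eq ht y m]; ring
        _ ≤ _ := mul_le_mul_of_nonneg_left hW1 htn.le
    have h5 : t ^ (m + 1) ≤ t ^ (m + 1) * W := by nlinarith
    calc y ^ (m + 1) * |ell (hat t y) - ell y| ≤ y ^ (m + 1) * ((t + y) / (1 + y) + t / y) :=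
          mul_le_mul_of_nonneg_left h1 (by positivity)
      _ = (t * y ^ (m + 1)) / (1 + y) + y ^ (m + 2) / (1 + y) + t * y ^ m := by
          field_simp
          ring
      _ ≤ t * y ^ (m + 1) + y ^ (m + 2) / (1 + y) + t * y ^ m := by
          have := div_le_self (show 0 ≤ t * y ^ (m + 1) by positivity)
            (show 1 ≤ 1 + y by linarith)
          linarith
      _ ≤ _ := by linarith
  have e : hat t y ^ (m + 1) * ell (hat t y) - y ^ (m + 1) * ell y - Real.log (1 / t) * D =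
      D * Real.log (t + t / hat t y) -
        (t + y) ^ (m + 1) * (1 - 1 / (1 + y) ^ (m + 1)) * ell (hat t y) +
        y ^ (m + 1) * (ell (hat t y) - ell y) := by
    have h1 : hat t y ^ (m + 1) = (t + y) ^ (m + 1) * (1 / (1 + y) ^ (m + 1)) := by
      unfold hat
      rw [div_pow]
      ring
    have h2 := ell_hat_eq ht hy
    have h3 : D * Real.log (t + t / hat t y) = D * (ell (hat t y) - Real.log (1 / t)) := by
      rw [h2]; ring
    rw [h3, h1, hD]
    ring
  rw [e]
  have hab := abs_add_three (D * Real.log (t + t / hat t y))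
    (-((t + y) ^ (m + 1) * (1 - 1 / (1 + y) ^ (m + 1)) * ell (hat t y)))
    (y ^ (m + 1) * (ell (hat t y) - ell y))
  rw [abs_neg] at hab
  rw [sub_eq_add_neg]
  refine hab.trans ?_
  linarith

/-- `E[Ŷ^n ℓ(Ŷ)] - E[Y^n ℓ(Y)] = log(1/t) E[(t+Y)^n - Y^n] + O(t^n)`. -/
lemma log_identity (H : Hyp ζ m) :
    ∃ C : ℝ, 0 ≤ C ∧ ∀ (t : ℝ) (ν : Measure ℝ), 0 < t → t ≤ 1 → IsInv ζ t ν →
      |∫ y, hat t y ^ (m + 1) * ell (hat t y) ∂ν - ∫ y, y ^ (m + 1) * ell y ∂ν -
        Real.log (1 / t) * ∫ y, ((t + y) ^ (m + 1) - y ^ (m + 1)) ∂ν| ≤ C * t ^ (m + 1) := by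
  obtain ⟨C1, hC10, hC1⟩ := half_moment H
  obtain ⟨C2, hC20, hC2⟩ := half_bound' H
  obtain ⟨C3, hC30, hC3⟩ := basic_bound H
  refine ⟨(4 * (m + 1) + 2 * (m + 1) ^ 2 + 2) * C1 + 2 * (m + 1) * C2 + 3 * C3, by positivity,
    fun t ν ht ht1 h => ?_⟩
  have := h.prob
  obtain ⟨a1, a2⟩ := hC1 t ν ht ht1 h
  obtain ⟨b1, b2⟩ := hC2 t ν ht ht1 h
  obtain ⟨c1, c2⟩ := hC3 t ν ht ht1 h
  have hi1 : Integrable (fun y => hat t y ^ (m + 1) * ell (hat t y)) ν := by
    refine hat_bdd_integrable h ht ht1 (φ := fun w => w ^ (m + 1) * ell w)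
      (by have := ell_measurable; fun_prop) (C := 1) ?_
    intro w hw hw1
    have hw0 : 0 ≤ w := ht.le.trans hw
    exact (pow_ell_le hw0).trans (pow_le_one₀ hw0 hw1)
  have hi2 : Integrable (fun y => y ^ (m + 1) * ell y) ν := by
    refine Integrable.mono' (pow_moment H h ht ht1 (k := m) (by omega)).1
      (Measurable.aestronglyMeasurable (by have := ell_measurable; fun_prop)) ?_
    filter_upwards [h.nonneg] with y hy using pow_ell_le hy
  obtain ⟨g1, g2⟩ := int_le_of_half h (hC1 t ν ht ht1 h)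
    (f := fun y => (t + y) ^ (m + 1) - y ^ (m + 1))
    (by fun_prop) (c := (m + 1) * t ^ (m + 1)) (by positivity) (by
      intro y hy
      rw [abs_of_nonneg (pow_diff_nonneg ht.le hy _)]
      have h2 := W_pow_le (m := m) ht hy le_rfl
      calc _ ≤ (m + 1) * t * (t + y) ^ m := pow_diff ht.le hy m
        _ = (m + 1) * t ^ (m + 1) * ((t + y) / t) ^ m := by rw [add_pow_eq ht y m]; ring
        _ ≤ _ := mul_le_mul_of_nonneg_left h2 (by positivity))
  have hi12 : Integrable (fun y => hat t y ^ (m + 1) * ell (hat t y) - y ^ (m + 1) * ell y) ν :=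
    hi1.sub hi2
  have hg3 : Integrable (fun y => Real.log (1 / t) * ((t + y) ^ (m + 1) - y ^ (m + 1))) ν :=
    g1.const_mul _
  rw [← integral_const_mul, ← integral_sub hi1 hi2, ← integral_sub hi12 hg3]
  refine abs_integral_le_integral_abs.trans ?_
  have hi4 : Integrable (fun y => (4 * (m + 1) + 2 * (m + 1) ^ 2 + 2) * t ^ (m + 1) *
      (((t + y) / t) ^ m * √((t + y) / t)) +
      2 * (m + 1) * (y ^ (m + 1) * √(hat t y)) + 3 * (y ^ (m + 2) / (1 + y))) ν :=
    ((a1.const_mul _).add (b1.const_mul _)).add (c1.const_mul _)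
  calc _ ≤ ∫ y, ((4 * (m + 1) + 2 * (m + 1) ^ 2 + 2) * t ^ (m + 1) *
      (((t + y) / t) ^ m * √((t + y) / t)) +
      2 * (m + 1) * (y ^ (m + 1) * √(hat t y)) + 3 * (y ^ (m + 2) / (1 + y))) ∂ν := by
        apply integral_mono_ae (hi12.sub hg3).abs hi4
        filter_upwards [h.nonneg] with y hy using pointwise_log ht ht1 hy
    _ = (4 * (m + 1) + 2 * (m + 1) ^ 2 + 2) * t ^ (m + 1) *
      ∫ y, (((t + y) / t) ^ m * √((t + y) / t)) ∂ν +
      2 * (m + 1) * ∫ y, (y ^ (m + 1) * √(hat t y)) ∂ν + 3 * ∫ y, (y ^ (m + 2) / (1 + y)) ∂ν := by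
        have j1 : Integrable (fun y => (4 * (m + 1) + 2 * (m + 1) ^ 2 + 2) * t ^ (m + 1) *
          (((t + y) / t) ^ m * √((t + y) / t))) ν := a1.const_mul _
        have j2 : Integrable (fun y => 2 * (m + 1) * (y ^ (m + 1) * √(hat t y))) ν :=
          b1.const_mul _
        have j12 : Integrable (fun y => (4 * (m + 1) + 2 * (m + 1) ^ 2 + 2) * t ^ (m + 1) *
          (((t + y) / t) ^ m * √((t + y) / t)) + 2 * (m + 1) * (y ^ (m + 1) * √(hat t y))) ν :=
          j1.add j2
        rw [integral_add j12 (c1.const_mul _), integral_add j1 j2, integral_const_mul,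
          integral_const_mul, integral_const_mul]
    _ ≤ (4 * (m + 1) + 2 * (m + 1) ^ 2 + 2) * t ^ (m + 1) * C1 +
      2 * (m + 1) * (C2 * t ^ (m + 1)) + 3 * (C3 * t ^ (m + 1)) := by gcongr
    _ = _ := by ring

end

end Pool.Agent.H646R3.DH
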