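import Pool.Agent.H646R3.DH.Adm

set_option autoImplicit false
open MeasureTheory Filter Topology Set Asymptotics

namespace Pool.Agent.H646R3.DH

noncomputable section

variable {ζ : Measure ℝ} {m : ℕ} {ν : ℝ → Measure ℝ}

lemma poly_trunc (P : Polynomial ℝ) (n : ℕ) :
    (fun t => P.eval t - ∑ k ∈ Finset.range n, P.coeff k * t ^ k) =O[𝓝[>] 0]
      (fun t : ℝ => t ^ n) := by
  set Q : Polynomial ℝ := ∑ k ∈ Finset.range n, Polynomial.C (P.coeff k) * Polynomial.X ^ k with hQ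
  have hdvd : Polynomial.X ^ n ∣ P - Q := by
    rw [Polynomial.X_pow_dvd_iff]
    intro d hd
    rw [Polynomial.coeff_sub, hQ, Polynomial.finsetSum_coeff]
    simp only [Polynomial.coeff_C_mul, Polynomial.coeff_X_pow, mul_ite, mul_one, mul_zero]
    rw [Finset.sum_ite_eq]
    simp [hd]
  obtain ⟨R, hR⟩ := hdvd
  have e : ∀ t : ℝ, P.eval t - ∑ k ∈ Finset.range n, P.coeff k * t ^ k = t ^ n * R.eval t := by
    intro t
    have h1 : (P - Q).eval t = P.eval t - ∑ k ∈ Finset.range n, P.coeff k * t ^ k := by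
      rw [Polynomial.eval_sub, hQ, Polynomial.eval_finsetSum]
      simp
    rw [← h1, hR]
    simp
  have h2 : (fun t : ℝ => R.eval t) =O[𝓝[>] 0] (fun _ : ℝ => (1 : ℝ)) := by
    have h3 : Tendsto (fun t : ℝ => R.eval t) (𝓝[>] 0) (𝓝 (R.eval 0)) :=
      (R.continuous.tendsto 0).mono_left nhdsWithin_le_nhds
    exact h3.isBigO_one ℝ
  have h4 := (isBigO_refl (fun t : ℝ => t ^ n) (𝓝[>] 0)).mul h2
  refine (h4.congr_left fun t => (e t).symm).congr_right fun t => ?_
  ring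

lemma L_tendsto_zero (H : Hyp ζ m) (hF : Fam ζ ν) :
    Tendsto (fun t => ∫ y, Real.log (1 + y) ∂(ν t)) (𝓝[>] 0) (𝓝 0) := by
  obtain ⟨C, hC0, hC⟩ := half_moment H
  apply squeeze_zero_norm' (a := fun t => (2 * C) * √t)
  · filter_upwards [ev_small] with t ht
    have h := hF t ht.1 ht.2
    obtain ⟨_, g2⟩ := int_le_of_half h (hC t (ν t) ht.1 ht.2 h)
      (f := fun y => Real.log (1 + y)) (by fun_prop) (c := 2 * √t) (by positivity) (by
        intro y hy
        rw [abs_of_nonneg (Real.log_nonneg (by linarith))]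
        have hW := one_le_W ht.1 hy
        have h1 : 1 ≤ ((t + y) / t) ^ m := one_le_pow₀ hW
        have h2 : √y ≤ √t * √((t + y) / t) := by
          rw [← Real.sqrt_mul ht.1.le, mul_div_cancel₀ _ ht.1.ne']
          exact Real.sqrt_le_sqrt (by linarith [ht.1])
        have h3 := log_one_add_le y hy
        have h4 : √((t + y) / t) ≤ ((t + y) / t) ^ m * √((t + y) / t) := by
          have := Real.sqrt_nonneg ((t + y) / t)
          nlinarith
        calc Real.log (1 + y) ≤ 2 * √y := h3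
          _ ≤ 2 * (√t * √((t + y) / t)) := by linarith
          _ = 2 * √t * √((t + y) / t) := by ring
          _ ≤ _ := mul_le_mul_of_nonneg_left h4 (by positivity))
    rw [Real.norm_eq_abs]
    refine g2.trans (le_of_eq ?_)
    ring
  · have := sqrt_tendsto.const_mul (2 * C)
    simpa using this

/-- Expansion in the variable `t`. -/
lemma main_t (H : Hyp ζ m) (hF : Fam ζ ν) :
    ∃ (a : ℕ → ℝ) (C : ℝ), 0 ≤ C ∧
      (0 < C ↔ Integrable (fun z => z ^ (m + 1) * Real.log z) ζ) ∧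
      (fun t => ∫ y, Real.log (1 + y) ∂(ν t) - ∑ k ∈ Finset.Icc 1 m, a k * t ^ k -
        (-1) ^ m * C * (t ^ (m + 1) * Real.log (1 / t))) =o[𝓝[>] 0]
      (fun t : ℝ => t ^ (m + 1) * Real.log (1 / t)) := by
  obtain ⟨b, hb, P, hP⟩ := L_adm H hF
  obtain ⟨c, hc0, hc1, hc⟩ := lambda_tendsto H hF
  have hL := log_inv_tendsto
  have hLpos : ∀ᶠ t : ℝ in 𝓝[>] 0, 0 < Real.log (1 / t) := hL.eventually_gt_atTop 0
  -- `t^n = o(t^n log (1/t))`
  have o1 : (fun t : ℝ => t ^ (m + 1)) =o[𝓝[>] 0] (fun t : ℝ => t ^ (m + 1) * Real.log (1 / t)) := by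
    have h1 : (fun _ : ℝ => (1 : ℝ)) =o[𝓝[>] 0] (fun t : ℝ => Real.log (1 / t)) := by
      rw [isLittleO_const_left]
      right
      exact tendsto_norm_atTop_atTop.comp hL
    have := (isBigO_refl (fun t : ℝ => t ^ (m + 1)) (𝓝[>] 0)).mul_isLittleO h1
    simpa using this
  -- `g = c t^n log(1/t) + o`
  have o2 : (fun t => mo ν (m + 1) t - c * (t ^ (m + 1) * Real.log (1 / t))) =o[𝓝[>] 0]
      (fun t : ℝ => t ^ (m + 1) * Real.log (1 / t)) := by
    have h1 : (fun t => (mo ν (m + 1) t / t ^ (m + 1)) / Real.log (1 / t) - c) =o[𝓝[>] 0]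
        (fun _ : ℝ => (1 : ℝ)) := by
      rw [isLittleO_one_iff]
      have := hc.sub_const c
      simpa using this
    have h2 := (isBigO_refl (fun t : ℝ => t ^ (m + 1) * Real.log (1 / t)) (𝓝[>] 0)).mul_isLittleO h1
    refine (h2.congr' ?_ ?_)
    · filter_upwards [ev_small, hLpos] with t ht hl
      have h3 : t ^ (m + 1) ≠ 0 := (pow_pos ht.1 _).ne'
      have h4 := hl.ne'
      field_simp
    · exact Eventually.of_forall fun t => by ring
  -- limit of `g`
  have hg0 : Tendsto (fun t => mo ν (m + 1) t) (𝓝[>] 0) (𝓝 0) := by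
    have h1 : Tendsto (fun t : ℝ => t ^ (m + 1) * Real.log (1 / t)) (𝓝[>] 0) (𝓝 0) := by
      have h2 : Tendsto (fun t : ℝ => Real.log t * t ^ ((m : ℝ) + 1)) (𝓝[>] 0) (𝓝 0) :=
        tendsto_log_mul_rpow_nhdsGT_zero (by positivity)
      have h3 := h2.neg
      rw [neg_zero] at h3
      refine h3.congr' ?_
      filter_upwards [ev_small] with t ht
      rw [one_div, Real.log_inv, ← Real.rpow_natCast]
      push_cast
      ring
    have h5 : (fun t => mo ν (m + 1) t) =O[𝓝[>] 0] (fun t : ℝ => t ^ (m + 1) * Real.log (1 / t)) := by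
      have h6 := o2.isBigO.add ((isBigO_refl (fun t : ℝ => t ^ (m + 1) * Real.log (1 / t))
        (𝓝[>] 0)).const_mul_left c)
      refine h6.congr_left fun t => ?_
      ring
    exact h5.trans_tendsto h1
  have hP0 : P.coeff 0 = 0 := by
    have h1 : Tendsto (fun t : ℝ => P.eval t) (𝓝[>] 0) (𝓝 (P.eval 0)) :=
      (P.continuous.tendsto 0).mono_left nhdsWithin_le_nhds
    have h2 : Tendsto (fun t : ℝ => t ^ (m + 1)) (𝓝[>] 0) (𝓝 0) := by
      have : Tendsto (fun t : ℝ => t ^ (m + 1)) (𝓝 0) (𝓝 (0 ^ (m + 1))) :=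
        (continuous_pow (m + 1)).tendsto 0
      rw [zero_pow (Nat.succ_ne_zero m)] at this
      exact this.mono_left nhdsWithin_le_nhds
    have h3 := hP.trans_tendsto h2
    have h4 : Tendsto (fun t : ℝ => P.eval t) (𝓝[>] 0) (𝓝 (0 - (-1) ^ m * b * 0 - 0)) := by
      refine (((L_tendsto_zero H hF).sub (hg0.const_mul ((-1) ^ m * b))).sub h3).congr fun t => ?_
      ring
    have h5 := tendsto_nhds_unique h1 h4
    rw [Polynomial.coeff_zero_eq_eval_zero, h5]
    ring
  refine ⟨fun k => P.coeff k, b * c, by positivity, ?_, ?_⟩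
  · rw [← hc1]
    exact ⟨fun h => pos_of_mul_pos_right h hb.le, fun h => by positivity⟩
  · have h1 := (hP.trans_isLittleO o1).add ((poly_trunc P (m + 1)).trans_isLittleO o1)
    have h2 := h1.add (o2.const_mul_left ((-1) ^ m * b))
    refine h2.congr_left fun t => ?_
    have e : ∑ k ∈ Finset.range (m + 1), P.coeff k * t ^ k = ∑ k ∈ Finset.Icc 1 m, P.coeff k * t ^ k := by
      rw [Finset.range_eq_Ico, Finset.sum_eq_sum_Ico_succ_bot (Nat.succ_pos m), hP0]
      simp only [zero_mul, zero_add]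
      rfl
    rw [e]
    ring

/-- `μ` is a law of `X ≥ 0` with `X = Z (1 + X) / (1 + ε² X)` in law, where `Z` has law `ζ` and is
independent of `X` on the right. -/
structure IsStationary (ζ : Measure ℝ) (ε : ℝ) (μ : Measure ℝ) : Prop where
  prob : IsProbabilityMeasure μ
  nonneg : ∀ᵐ x ∂μ, 0 ≤ x
  inv : (ζ.prod μ).map (fun p : ℝ × ℝ => p.1 * (1 + p.2) / (1 + ε ^ 2 * p.2)) = μ

lemma isInv_of_stationary (ζ : Measure ℝ) [IsProbabilityMeasure ζ] {ε : ℝ} {μ : Measure ℝ}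
    (h : IsStationary ζ ε μ) : IsInv ζ (ε ^ 2) (μ.map (fun x => ε ^ 2 * x)) := by
  have := h.prob
  have hm : Measurable (fun x : ℝ => ε ^ 2 * x) := by fun_prop
  refine ⟨Measure.isProbabilityMeasure_map hm.aemeasurable, ?_, ?_⟩
  · rw [ae_map_iff hm.aemeasurable measurableSet_Ici]
    filter_upwards [h.nonneg] with x hx
    positivity
  · have e1 : ζ.prod (μ.map (fun x => ε ^ 2 * x)) =
        (ζ.prod μ).map (Prod.map id (fun x => ε ^ 2 * x)) := by
      have := Measure.map_prod_map ζ μ measurable_id hm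
      rw [Measure.map_id] at this
      exact this
    rw [e1, Measure.map_map (step_measurable (ε ^ 2)) (measurable_id.prodMap hm)]
    conv_rhs => rw [← h.inv]
    have hm2 : Measurable (fun p : ℝ × ℝ => p.1 * (1 + p.2) / (1 + ε ^ 2 * p.2)) := by fun_prop
    rw [Measure.map_map hm hm2]
    congr 1
    funext p
    simp only [Function.comp_apply, Prod.map, id, hat]
    ring

/-- the expansion in `ε` -/
theorem main (ζ : Measure ℝ) [IsProbabilityMeasure ζ] (hpos : ∀ᵐ z ∂ζ, 0 < z)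
    (hnc : ¬ ∃ c : ℝ, ∀ᵐ z ∂ζ, z = c) (α : ℕ) (hα : 1 ≤ α) (hmom : ∫ z, z ^ α ∂ζ = 1)
    (μ : ℝ → Measure ℝ) (hμ : ∀ ε, 0 < ε → IsStationary ζ ε (μ ε)) :
    ∃ (ℓ : ℕ → ℝ) (C : ℝ), 0 ≤ C ∧
      (0 < C ↔ Integrable (fun z => z ^ α * Real.log z) ζ) ∧
      (fun ε : ℝ => ∫ x, Real.log (1 + ε ^ 2 * x) ∂(μ ε) -
        ∑ k ∈ Finset.Icc 1 (α - 1), (-1) ^ (k + 1) * ℓ k * ε ^ (2 * k) -
        (-1) ^ (α - 1) * C * (ε ^ (2 * α) * Real.log (1 / ε))) =o[𝓝[>] 0]
      (fun ε : ℝ => ε ^ (2 * α) * Real.log (1 / ε)) := by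
  obtain ⟨m, rfl⟩ : ∃ m, α = m + 1 := ⟨α - 1, by omega⟩
  have H : Hyp ζ m := ⟨inferInstance, hpos, hmom, fun h => hnc ⟨1, h⟩⟩
  set ν : ℝ → Measure ℝ := fun t => (μ (√t)).map (fun x => t * x) with hν
  have hF : Fam ζ ν := by
    intro t ht _
    have h1 := isInv_of_stationary ζ (hμ (√t) (Real.sqrt_pos.2 ht))
    rw [Real.sq_sqrt ht.le] at h1
    exact h1
  obtain ⟨a, C, hC0, hC1, hC⟩ := main_t H hF
  refine ⟨fun k => (-1) ^ (k + 1) * a k, 2 * C, by positivity, ?_, ?_⟩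
  · rw [← hC1]
    constructor
    · intro h; linarith
    · intro h; linarith
  have hsq : Tendsto (fun ε : ℝ => ε ^ 2) (𝓝[>] 0) (𝓝[>] 0) := by
    rw [tendsto_nhdsWithin_iff]
    constructor
    · have : Tendsto (fun ε : ℝ => ε ^ 2) (𝓝 0) (𝓝 (0 ^ 2)) := (continuous_pow 2).tendsto 0
      rw [zero_pow two_ne_zero] at this
      exact this.mono_left nhdsWithin_le_nhds
    · filter_upwards [self_mem_nhdsWithin] with ε hε
      have : (0:ℝ) < ε := hε
      exact pow_pos this 2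
  have h2 := hC.comp_tendsto hsq
  have h3 : ((fun t : ℝ => t ^ (m + 1) * Real.log (1 / t)) ∘ fun ε : ℝ => ε ^ 2) =O[𝓝[>] 0]
      (fun ε : ℝ => ε ^ (2 * (m + 1)) * Real.log (1 / ε)) := by
    have h4 : ((fun t : ℝ => t ^ (m + 1) * Real.log (1 / t)) ∘ fun ε : ℝ => ε ^ 2) =
        fun ε => 2 * (ε ^ (2 * (m + 1)) * Real.log (1 / ε)) := by
      funext ε
      simp only [Function.comp_apply, one_div, Real.log_inv, Real.log_pow]
      push_cast
      ring
    rw [h4]
    exact (isBigO_refl _ _).const_mul_left 2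
  refine (h2.trans_isBigO h3).congr' ?_ EventuallyEq.rfl
  filter_upwards [self_mem_nhdsWithin] with ε hε
  have hε0 : (0:ℝ) < ε := hε
  simp only [Function.comp_apply, hν]
  rw [Real.sqrt_sq hε0.le]
  have e1 : ∫ y, Real.log (1 + y) ∂((μ ε).map (fun x => ε ^ 2 * x)) =
      ∫ x, Real.log (1 + ε ^ 2 * x) ∂(μ ε) := by
    rw [integral_map (by fun_prop) (Measurable.aestronglyMeasurable (by fun_prop))]
  rw [e1]
  congr 1
  · congr 1
    refine Finset.sum_congr rfl fun k _ => ?_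
    rw [← mul_assoc, ← pow_add, ← two_mul, pow_mul (-1 : ℝ) 2]
    simp only [even_two, Even.neg_pow, one_pow, one_mul]
    rw [← pow_mul]
  · simp only [one_div, Real.log_inv, Real.log_pow, Nat.add_sub_cancel]
    push_cast
    ring

end

end Pool.Agent.H646R3.DH
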