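import Pool.Agent.H646R3.DH.Basic

set_option autoImplicit false
open MeasureTheory Filter Topology Set

namespace Pool.Agent.H646R3.DH

noncomputable section

variable {ζ : Measure ℝ} {m : ℕ} {t : ℝ} {ν : Measure ℝ}

lemma Hyp.integrable (H : Hyp ζ m) : Integrable (fun z => z ^ (m + 1)) ζ := by
  by_contra h
  have := integral_undef h
  rw [H.mom] at this
  norm_num at this

lemma integral_strict (H : Hyp ζ m) {f : ℝ → ℝ} (hf : Integrable f ζ)
    (h0 : ∀ z, 0 < z → 0 ≤ f z) (h1 : ∀ z, 0 < z → z ≠ 1 → 0 < f z) : 0 < ∫ z, f z ∂ζ := by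
  have hn : 0 ≤ᵐ[ζ] f := by
    filter_upwards [H.pos] with z hz using h0 z hz
  rcases (integral_nonneg_of_ae hn).lt_or_eq with h | h
  · exact h
  · exfalso
    have h2 := (integral_eq_zero_iff_of_nonneg_ae hn hf).1 h.symm
    apply H.nc
    filter_upwards [h2, H.pos] with z hz hz0
    by_contra hz1
    have := h1 z hz0 hz1
    simp only [Pi.zero_apply] at hz
    linarith

lemma mom_integrable (H : Hyp ζ m) {s : ℝ} (hs : 0 < s) (hsn : s < m + 1) :
    Integrable (fun z => z ^ s) ζ := by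
  have := H.prob
  refine Integrable.mono' (g := fun z => 1 + (s / ((m + 1 : ℕ) : ℝ)) * (z ^ (m + 1) - 1)) ?_ ?_ ?_
  · exact (integrable_const _).add ((H.integrable.sub (integrable_const _)).const_mul _)
  · exact (measurable_id.pow_const s).aestronglyMeasurable
  · filter_upwards [H.pos] with z hz
    rw [Real.norm_of_nonneg (Real.rpow_nonneg hz.le _)]
    exact rpow_le_of_pos hz hs (by push_cast; exact hsn)

lemma mom_lt (H : Hyp ζ m) {s : ℝ} (hs : 0 < s) (hsn : s < m + 1) : ∫ z, z ^ s ∂ζ < 1 := by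
  have := H.prob
  have hi := mom_integrable H hs hsn
  have hi2 : Integrable (fun z => 1 + (s / ((m + 1 : ℕ) : ℝ)) * (z ^ (m + 1) - 1)) ζ :=
    (integrable_const _).add ((H.integrable.sub (integrable_const _)).const_mul _)
  have h := integral_strict H (f := fun z => 1 + (s / ((m + 1 : ℕ) : ℝ)) * (z ^ (m + 1) - 1) - z ^ s)
    (hi2.sub hi) (fun z hz => by
      have := rpow_le_of_pos (n := m + 1) hz hs (by push_cast; exact hsn)
      linarith) (fun z hz hz1 => by
      have := rpow_lt_of_pos (n := m + 1) hz hz1 hs (by push_cast; exact hsn)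
      linarith)
  have e : ∫ z, (1 + (s / ((m + 1 : ℕ) : ℝ)) * (z ^ (m + 1) - 1) - z ^ s) ∂ζ =
      1 - ∫ z, z ^ s ∂ζ := by
    have hi3 : Integrable (fun z => (s / ((m + 1 : ℕ) : ℝ)) * (z ^ (m + 1) - 1)) ζ :=
      (H.integrable.sub (integrable_const _)).const_mul _
    rw [integral_sub hi2 hi, integral_add (integrable_const _) hi3, integral_const_mul,
      integral_sub H.integrable (integrable_const _), H.mom]
    simp
  rw [e] at h
  linarith

lemma mom_nonneg (H : Hyp ζ m) (s : ℝ) : 0 ≤ ∫ z, z ^ s ∂ζ := by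
  apply integral_nonneg_of_ae
  filter_upwards [H.pos] with z hz using Real.rpow_nonneg hz.le _

/-- natural moments -/
def rho (ζ : Measure ℝ) (k : ℕ) : ℝ := ∫ z, z ^ k ∂ζ

lemma pow_integrable (H : Hyp ζ m) {k : ℕ} (hk : k ≤ m + 1) : Integrable (fun z => z ^ k) ζ := by
  have := H.prob
  rcases Nat.eq_zero_or_pos k with rfl | hk0
  · simp
  rcases hk.eq_or_lt with rfl | hk'
  · exact H.integrable
  have := mom_integrable H (s := k) (by positivity) (by exact_mod_cast hk')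
  simpa [Real.rpow_natCast] using this

lemma rho_lt (H : Hyp ζ m) {k : ℕ} (hk0 : 1 ≤ k) (hk : k ≤ m) : rho ζ k < 1 := by
  have := mom_lt H (s := k) (by positivity) (by exact_mod_cast Nat.lt_succ_of_le hk)
  simpa [rho, Real.rpow_natCast] using this

lemma rho_pos (H : Hyp ζ m) {k : ℕ} (hk : k ≤ m + 1) : 0 < rho ζ k := by
  have := H.prob
  unfold rho
  have hn : 0 ≤ᵐ[ζ] (fun z => z ^ k) := by
    filter_upwards [H.pos] with z hz using pow_nonneg hz.le k
  rcases (integral_nonneg_of_ae hn).lt_or_eq with h | h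
  · exact h
  · exfalso
    have h2 := (integral_eq_zero_iff_of_nonneg_ae hn (pow_integrable H hk)).1 h.symm
    have h3 : ∀ᵐ z ∂ζ, False := by
      filter_upwards [h2, H.pos] with z hz hz0
      have := pow_pos hz0 k
      simp only [Pi.zero_apply] at hz
      linarith
    have h4 := h3.exists
    simp at h4

lemma rho_top (H : Hyp ζ m) : rho ζ (m + 1) = 1 := H.mom

/-! ### change of variables -/

lemma ae_prod (H : Hyp ζ m) (h : IsInv ζ t ν) :
    ∀ᵐ p ∂(ζ.prod ν), 0 < p.1 ∧ 0 ≤ p.2 := by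
  have := H.prob
  have := h.prob
  have h1 := (Measure.quasiMeasurePreserving_fst (μ := ζ) (ν := ν)).ae H.pos
  have h2 := (Measure.quasiMeasurePreserving_snd (μ := ζ) (ν := ν)).ae h.nonneg
  filter_upwards [h1, h2] with p hp1 hp2 using ⟨hp1, hp2⟩

lemma step_measurable (t : ℝ) : Measurable (fun p : ℝ × ℝ => p.1 * hat t p.2) :=
  measurable_fst.mul ((hat_measurable t).comp measurable_snd)

lemma IsInv.integral_eq (h : IsInv ζ t ν) {f : ℝ → ℝ} (hf : Measurable f) :
    ∫ y, f y ∂ν = ∫ p, f (p.1 * hat t p.2) ∂(ζ.prod ν) := by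
  conv_lhs => rw [← h.inv]
  rw [integral_map (step_measurable t).aemeasurable hf.aestronglyMeasurable]

lemma IsInv.integrable_iff (h : IsInv ζ t ν) {f : ℝ → ℝ} (hf : Measurable f) :
    Integrable f ν ↔ Integrable (fun p : ℝ × ℝ => f (p.1 * hat t p.2)) (ζ.prod ν) := by
  conv_lhs => rw [← h.inv]
  rw [integrable_map_measure hf.aestronglyMeasurable (step_measurable t).aemeasurable]
  rfl

lemma hat_bdd_integrable (h : IsInv ζ t ν) (_ht : 0 < t) (ht1 : t ≤ 1) {φ : ℝ → ℝ}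
    (hφm : Measurable φ) {C : ℝ} (hb : ∀ w, t ≤ w → w ≤ 1 → |φ w| ≤ C) :
    Integrable (fun y => φ (hat t y)) ν := by
  have := h.prob
  refine Integrable.mono' (integrable_const C) (hφm.comp (hat_measurable t)).aestronglyMeasurable ?_
  filter_upwards [h.nonneg] with y hy
  exact hb _ (le_hat ht1 hy) (hat_le_one ht1 hy)

lemma mul_moment (H : Hyp ζ m) (h : IsInv ζ t ν) (ht : 0 < t) (ht1 : t ≤ 1) {φ : ℝ → ℝ}
    (hφm : Measurable φ) (hφ : Integrable φ ζ) {C : ℝ} (hb : ∀ w, t ≤ w → w ≤ 1 → |φ w| ≤ C)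
    (hmul : ∀ z w, 0 < z → 0 < w → φ (z * w) = φ z * φ w) :
    Integrable φ ν ∧ ∫ y, φ y ∂ν = (∫ z, φ z ∂ζ) * ∫ y, φ (hat t y) ∂ν := by
  have := H.prob
  have := h.prob
  have h1 := hat_bdd_integrable h ht ht1 hφm hb
  have e : (fun p : ℝ × ℝ => φ (p.1 * hat t p.2)) =ᵐ[ζ.prod ν]
      fun p => φ p.1 * φ (hat t p.2) := by
    filter_upwards [ae_prod H h] with p hp
    exact hmul _ _ hp.1 (hat_pos ht hp.2)
  constructor
  · rw [h.integrable_iff hφm]
    exact (hφ.mul_prod h1).congr e.symm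
  · rw [h.integral_eq hφm, integral_congr_ae e]
    exact integral_prod_mul φ (fun y => φ (hat t y))

lemma pow_moment (H : Hyp ζ m) (h : IsInv ζ t ν) (ht : 0 < t) (ht1 : t ≤ 1) {k : ℕ}
    (hk : k ≤ m + 1) :
    Integrable (fun y => y ^ k) ν ∧ ∫ y, y ^ k ∂ν = rho ζ k * ∫ y, hat t y ^ k ∂ν := by
  refine mul_moment H h ht ht1 (φ := fun y => y ^ k) (by fun_prop) (pow_integrable H hk)
    (C := 1) ?_ ?_
  · intro w hw hw1
    have hw0 : 0 ≤ w := ht.le.trans hw
    rw [abs_of_nonneg (pow_nonneg hw0 _)]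
    exact pow_le_one₀ hw0 hw1
  · intro z w _ _
    exact mul_pow z w k

lemma rpow_moment (H : Hyp ζ m) (h : IsInv ζ t ν) (ht : 0 < t) (ht1 : t ≤ 1) {s : ℝ}
    (hs : 0 < s) (hsn : s < m + 1) :
    Integrable (fun y => y ^ s) ν ∧ ∫ y, y ^ s ∂ν = (∫ z, z ^ s ∂ζ) * ∫ y, hat t y ^ s ∂ν := by
  refine mul_moment H h ht ht1 (φ := fun y => y ^ s) (measurable_id.pow_const s)
    (mom_integrable H hs hsn) (C := 1) ?_ ?_
  · intro w hw hw1
    have hw0 : 0 ≤ w := ht.le.trans hw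
    rw [abs_of_nonneg (Real.rpow_nonneg hw0 _)]
    exact Real.rpow_le_one hw0 hw1 hs.le
  · intro z w hz hw
    exact Real.mul_rpow hz.le hw.le

/-- `(1+x)^s ≤ (1+δ) x^s + C`. -/
lemma one_add_rpow {s δ : ℝ} (hs : 0 < s) (hδ : 0 < δ) :
    ∃ C : ℝ, 0 ≤ C ∧ ∀ x : ℝ, 0 ≤ x → (1 + x) ^ s ≤ (1 + δ) * x ^ s + C := by
  have hc : Tendsto (fun x : ℝ => (1 + x⁻¹) ^ s) atTop (𝓝 ((1 + 0) ^ s)) :=
    (tendsto_const_nhds.add tendsto_inv_atTop_zero).rpow_const (Or.inl (by norm_num))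
  rw [add_zero, Real.one_rpow] at hc
  have h2 := (hc.eventually (gt_mem_nhds (show (1 : ℝ) < 1 + δ by linarith))).and
    (eventually_gt_atTop 0)
  obtain ⟨x0, hx0, hx00⟩ := h2.exists
  refine ⟨(1 + x0) ^ s, by positivity, fun x hx => ?_⟩
  rcases le_total x0 x with h | h
  · have hxp : 0 < x := hx00.trans_le h
    have e : (1 + x) ^ s = (1 + x⁻¹) ^ s * x ^ s := by
      rw [← Real.mul_rpow (by positivity) hx]
      congr 1
      field_simp
      ring
    rw [e]
    have h3 : (1 + x⁻¹) ^ s ≤ (1 + x0⁻¹) ^ s := by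
      apply Real.rpow_le_rpow (by positivity) _ hs.le
      have := inv_anti₀ hx00 h
      linarith
    have h4 : 0 ≤ x ^ s := Real.rpow_nonneg hx _
    have h5 : (1 + x⁻¹) ^ s * x ^ s ≤ (1 + δ) * x ^ s :=
      mul_le_mul_of_nonneg_right (h3.trans hx0.le) h4
    have h6 : 0 ≤ (1 + x0) ^ s := by positivity
    linarith
  · have h3 : (1 + x) ^ s ≤ (1 + x0) ^ s := Real.rpow_le_rpow (by positivity) (by linarith) hs.le
    have h4 : 0 ≤ (1 + δ) * x ^ s := by
      have : 0 ≤ x ^ s := Real.rpow_nonneg hx _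
      positivity
    linarith

/-- uniform moment bound of order `s < m+1` for `(t+Y)/t = 1 + X`. -/
lemma smoment (H : Hyp ζ m) {s : ℝ} (hs : 0 < s) (hsn : s < m + 1) :
    ∃ C : ℝ, 0 ≤ C ∧ ∀ (t : ℝ) (ν : Measure ℝ), 0 < t → t ≤ 1 → IsInv ζ t ν →
      Integrable (fun y => ((t + y) / t) ^ s) ν ∧ ∫ y, ((t + y) / t) ^ s ∂ν ≤ C := by
  set ρ : ℝ := ∫ z, z ^ s ∂ζ with hρ
  have hρ1 : ρ < 1 := mom_lt H hs hsn
  have hρ0 : 0 ≤ ρ := mom_nonneg H s
  obtain ⟨C, hC0, hC⟩ := one_add_rpow (s := s) (δ := (1 - ρ) / 2) hs (by linarith)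
  have hq : ρ * (1 + (1 - ρ) / 2) < 1 := by nlinarith
  refine ⟨2 * (ρ * C / (1 - ρ * (1 + (1 - ρ) / 2))) + C, ?_, ?_⟩
  · have : 0 < 1 - ρ * (1 + (1 - ρ) / 2) := by linarith
    positivity
  intro t ν ht ht1 h
  have := H.prob
  have := h.prob
  obtain ⟨hi, he⟩ := rpow_moment H h ht ht1 hs hsn
  have hts : 0 < t ^ s := Real.rpow_pos_of_pos ht s
  -- pointwise
  have hp : ∀ y, 0 ≤ y → ((t + y) / t) ^ s ≤ (1 + (1 - ρ) / 2) * (y ^ s / t ^ s) + C := by
    intro y hy
    have e1 : (t + y) / t = 1 + y / t := by field_simp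
    rw [e1, ← Real.div_rpow hy ht.le]
    exact hC _ (by positivity)
  have hi2 : Integrable (fun y => (1 + (1 - ρ) / 2) * (y ^ s / t ^ s) + C) ν :=
    ((hi.div_const _).const_mul _).add (integrable_const _)
  have hi3 : Integrable (fun y => ((t + y) / t) ^ s) ν := by
    refine Integrable.mono' hi2 ?_ ?_
    · exact (Measurable.pow_const (by fun_prop) s).aestronglyMeasurable
    · filter_upwards [h.nonneg] with y hy
      rw [Real.norm_of_nonneg (Real.rpow_nonneg (by positivity) _)]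
      exact hp y hy
  have hle : ∫ y, ((t + y) / t) ^ s ∂ν ≤ (1 + (1 - ρ) / 2) * ((∫ y, y ^ s ∂ν) / t ^ s) + C := by
    have h1 : ∫ y, ((t + y) / t) ^ s ∂ν ≤ ∫ y, ((1 + (1 - ρ) / 2) * (y ^ s / t ^ s) + C) ∂ν := by
      apply integral_mono_ae hi3 hi2
      filter_upwards [h.nonneg] with y hy using hp y hy
    have h2 : ∫ y, ((1 + (1 - ρ) / 2) * (y ^ s / t ^ s) + C) ∂ν =
        (1 + (1 - ρ) / 2) * ((∫ y, y ^ s ∂ν) / t ^ s) + C := by
      rw [integral_add ((hi.div_const _).const_mul _) (integrable_const _), integral_const_mul,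
        integral_div]
      simp
    rw [h2] at h1
    exact h1
  set e : ℝ := (∫ y, y ^ s ∂ν) / t ^ s with hedef
  have hEle : e ≤ ρ * ∫ y, ((t + y) / t) ^ s ∂ν := by
    rw [hedef, he, mul_div_assoc]
    apply mul_le_mul_of_nonneg_left _ hρ0
    rw [div_le_iff₀ hts, ← integral_mul_const]
    apply integral_mono_ae
    · refine hat_bdd_integrable h ht ht1 (φ := fun w => w ^ s) (measurable_id.pow_const s)
        (C := 1) ?_
      intro w hw hw1
      have hw0 : 0 ≤ w := ht.le.trans hw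
      rw [abs_of_nonneg (Real.rpow_nonneg hw0 _)]
      exact Real.rpow_le_one hw0 hw1 hs.le
    · exact hi3.mul_const _
    · filter_upwards [h.nonneg] with y hy
      rw [Real.div_rpow (by positivity) ht.le, div_mul_cancel₀ _ hts.ne']
      exact Real.rpow_le_rpow (hat_pos ht hy).le (hat_le ht hy) hs.le
  have hle' : ∫ y, ((t + y) / t) ^ s ∂ν ≤ (1 + (1 - ρ) / 2) * e + C := hle
  have he2 : e ≤ ρ * C / (1 - ρ * (1 + (1 - ρ) / 2)) := by
    rw [le_div_iff₀ (by linarith)]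
    nlinarith
  refine ⟨hi3, ?_⟩
  have he0 : 0 ≤ e := by
    rw [hedef]
    apply div_nonneg _ hts.le
    apply integral_nonneg_of_ae
    filter_upwards [h.nonneg] with y hy using Real.rpow_nonneg hy _
  nlinarith

end

end Pool.Agent.H646R3.DH
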